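import Pool.Agent.L5helper44.Thin.W15.M0
import Pool.Agent.L5helper44.Thin.W15.M1
import Pool.Agent.L5helper44.Thin.W15.M2
import Pool.Agent.L5helper44.Thin.W15.M3
import Pool.Agent.L5helper44.Thin.W15.M4
import Pool.Agent.L5helper44.Thin.W15.M5
import Pool.Agent.L5helper44.Thin.W15.M6
import Pool.Agent.L5helper44.Thin.W15.M7
import Pool.Agent.L5helper44.Thin.W15.M8
import Pool.Agent.L5helper44.Thin.W15.M9
import Pool.Agent.L5helper44.Thin.W15.M10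
import Pool.Agent.L5helper44.Thin.W15.M11
import Pool.Agent.L5helper44.Thin.W15.M12
import Pool.Agent.L5helper44.Thin.W15.M13
import Pool.Agent.L5helper44.Thin.W15.M14

/-! The whole search tree. -/

set_option autoImplicit false

namespace Pool.Agent.L5helper44.Thin.W15

theorem h192 : Chd 16 8 Bd 3 n192 := Chd.mk _ c192 n192 chd_nil t192
theorem h191 : Chd 16 8 Bd 3 n191 := Chd.mk _ c191 n191 chd_nil t191
theorem h190 : Chd 16 8 Bd 3 n190 := Chd.mk _ c190 n190 chd_nil t190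
theorem h189 : Chd 16 8 Bd 3 n189 := Chd.mk _ c189 n189 chd_nil t189
theorem h188 : Chd 16 8 Bd 3 n188 := Chd.mk _ c188 n188 chd_nil t188
theorem h187 : Chd 16 8 Bd 3 n187 := Chd.mk _ c187 n187 chd_nil t187
theorem h186 : Chd 16 8 Bd 3 n186 := Chd.mk _ c186 n186 (chd_cons h190 (chd_cons h191 (chd_cons h192 chd_nil))) t186
theorem h185 : Chd 16 8 Bd 3 n185 := Chd.mk _ c185 n185 chd_nil t185
theorem h184 : Chd 16 8 Bd 3 n184 := Chd.mk _ c184 n184 chd_nil t184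
theorem h183 : Chd 16 8 Bd 3 n183 := Chd.mk _ c183 n183 chd_nil t183
theorem h182 : Chd 16 8 Bd 3 n182 := Chd.mk _ c182 n182 chd_nil t182
theorem h181 : Chd 16 8 Bd 3 n181 := Chd.mk _ c181 n181 chd_nil t181
theorem h180 : Chd 16 8 Bd 3 n180 := Chd.mk _ c180 n180 chd_nil t180
theorem h179 : Chd 16 8 Bd 3 n179 := Chd.mk _ c179 n179 (chd_cons h189 chd_nil) t179
theorem h178 : Chd 16 8 Bd 3 n178 := Chd.mk _ c178 n178 chd_nil t178
theorem h177 : Chd 16 8 Bd 3 n177 := Chd.mk _ c177 n177 chd_nil t177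
theorem h176 : Chd 16 8 Bd 3 n176 := Chd.mk _ c176 n176 chd_nil t176
theorem h175 : Chd 16 8 Bd 3 n175 := Chd.mk _ c175 n175 chd_nil t175
theorem h174 : Chd 16 8 Bd 3 n174 := Chd.mk _ c174 n174 (chd_cons h188 chd_nil) t174
theorem h173 : Chd 16 8 Bd 3 n173 := Chd.mk _ c173 n173 chd_nil t173
theorem h172 : Chd 16 8 Bd 3 n172 := Chd.mk _ c172 n172 chd_nil t172
theorem h171 : Chd 16 8 Bd 3 n171 := Chd.mk _ c171 n171 chd_nil t171
theorem h170 : Chd 16 8 Bd 3 n170 := Chd.mk _ c170 n170 chd_nil t170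
theorem h169 : Chd 16 8 Bd 3 n169 := Chd.mk _ c169 n169 chd_nil t169
theorem h168 : Chd 16 8 Bd 3 n168 := Chd.mk _ c168 n168 chd_nil t168
theorem h167 : Chd 16 8 Bd 3 n167 := Chd.mk _ c167 n167 chd_nil t167
theorem h166 : Chd 16 8 Bd 3 n166 := Chd.mk _ c166 n166 chd_nil t166
theorem h165 : Chd 16 8 Bd 3 n165 := Chd.mk _ c165 n165 chd_nil t165
theorem h164 : Chd 16 8 Bd 3 n164 := Chd.mk _ c164 n164 chd_nil t164
theorem h163 : Chd 16 8 Bd 3 n163 := Chd.mk _ c163 n163 chd_nil t163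
theorem h162 : Chd 16 8 Bd 3 n162 := Chd.mk _ c162 n162 chd_nil t162
theorem h161 : Chd 16 8 Bd 3 n161 := Chd.mk _ c161 n161 chd_nil t161
theorem h160 : Chd 16 8 Bd 3 n160 := Chd.mk _ c160 n160 chd_nil t160
theorem h159 : Chd 16 8 Bd 3 n159 := Chd.mk _ c159 n159 chd_nil t159
theorem h158 : Chd 16 8 Bd 3 n158 := Chd.mk _ c158 n158 chd_nil t158
theorem h157 : Chd 16 8 Bd 3 n157 := Chd.mk _ c157 n157 (chd_cons h187 chd_nil) t157
theorem h156 : Chd 16 8 Bd 3 n156 := Chd.mk _ c156 n156 chd_nil t156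
theorem h155 : Chd 16 8 Bd 3 n155 := Chd.mk _ c155 n155 chd_nil t155
theorem h154 : Chd 16 8 Bd 3 n154 := Chd.mk _ c154 n154 (chd_cons h184 (chd_cons h185 (chd_cons h186 chd_nil))) t154
theorem h153 : Chd 16 8 Bd 3 n153 := Chd.mk _ c153 n153 (chd_cons h183 chd_nil) t153
theorem h152 : Chd 16 8 Bd 3 n152 := Chd.mk _ c152 n152 chd_nil t152
theorem h151 : Chd 16 8 Bd 3 n151 := Chd.mk _ c151 n151 chd_nil t151
theorem h150 : Chd 16 8 Bd 3 n150 := Chd.mk _ c150 n150 chd_nil t150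
theorem h149 : Chd 16 8 Bd 3 n149 := Chd.mk _ c149 n149 chd_nil t149
theorem h148 : Chd 16 8 Bd 3 n148 := Chd.mk _ c148 n148 (chd_cons h181 (chd_cons h182 chd_nil)) t148
theorem h147 : Chd 16 8 Bd 3 n147 := Chd.mk _ c147 n147 chd_nil t147
theorem h146 : Chd 16 8 Bd 3 n146 := Chd.mk _ c146 n146 (chd_cons h180 chd_nil) t146
theorem h145 : Chd 16 8 Bd 3 n145 := Chd.mk _ c145 n145 chd_nil t145
theorem h144 : Chd 16 8 Bd 3 n144 := Chd.mk _ c144 n144 (chd_cons h179 chd_nil) t144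
theorem h143 : Chd 16 8 Bd 3 n143 := Chd.mk _ c143 n143 (chd_cons h178 chd_nil) t143
theorem h142 : Chd 16 8 Bd 3 n142 := Chd.mk _ c142 n142 chd_nil t142
theorem h141 : Chd 16 8 Bd 3 n141 := Chd.mk _ c141 n141 (chd_cons h171 (chd_cons h172 (chd_cons h173 (chd_cons h174 (chd_cons h175 (chd_cons h176 (chd_cons h177 chd_nil))))))) t141
theorem h140 : Chd 16 8 Bd 3 n140 := Chd.mk _ c140 n140 chd_nil t140
theorem h139 : Chd 16 8 Bd 3 n139 := Chd.mk _ c139 n139 (chd_cons h170 chd_nil) t139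
theorem h138 : Chd 16 8 Bd 3 n138 := Chd.mk _ c138 n138 chd_nil t138
theorem h137 : Chd 16 8 Bd 3 n137 := Chd.mk _ c137 n137 (chd_cons h169 chd_nil) t137
theorem h136 : Chd 16 8 Bd 3 n136 := Chd.mk _ c136 n136 chd_nil t136
theorem h135 : Chd 16 8 Bd 3 n135 := Chd.mk _ c135 n135 (chd_cons h168 chd_nil) t135
theorem h134 : Chd 16 8 Bd 3 n134 := Chd.mk _ c134 n134 chd_nil t134
theorem h133 : Chd 16 8 Bd 3 n133 := Chd.mk _ c133 n133 chd_nil t133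
theorem h132 : Chd 16 8 Bd 3 n132 := Chd.mk _ c132 n132 chd_nil t132
theorem h131 : Chd 16 8 Bd 3 n131 := Chd.mk _ c131 n131 chd_nil t131
theorem h130 : Chd 16 8 Bd 3 n130 := Chd.mk _ c130 n130 chd_nil t130
theorem h129 : Chd 16 8 Bd 3 n129 := Chd.mk _ c129 n129 chd_nil t129
theorem h128 : Chd 16 8 Bd 3 n128 := Chd.mk _ c128 n128 (chd_cons h167 chd_nil) t128
theorem h127 : Chd 16 8 Bd 3 n127 := Chd.mk _ c127 n127 chd_nil t127
theorem h126 : Chd 16 8 Bd 3 n126 := Chd.mk _ c126 n126 chd_nil t126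
theorem h125 : Chd 16 8 Bd 3 n125 := Chd.mk _ c125 n125 chd_nil t125
theorem h124 : Chd 16 8 Bd 3 n124 := Chd.mk _ c124 n124 chd_nil t124
theorem h123 : Chd 16 8 Bd 3 n123 := Chd.mk _ c123 n123 chd_nil t123
theorem h122 : Chd 16 8 Bd 3 n122 := Chd.mk _ c122 n122 chd_nil t122
theorem h121 : Chd 16 8 Bd 3 n121 := Chd.mk _ c121 n121 (chd_cons h166 chd_nil) t121
theorem h120 : Chd 16 8 Bd 3 n120 := Chd.mk _ c120 n120 chd_nil t120
theorem h119 : Chd 16 8 Bd 3 n119 := Chd.mk _ c119 n119 (chd_cons h164 (chd_cons h165 chd_nil)) t119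
theorem h118 : Chd 16 8 Bd 3 n118 := Chd.mk _ c118 n118 (chd_cons h163 chd_nil) t118
theorem h117 : Chd 16 8 Bd 3 n117 := Chd.mk _ c117 n117 (chd_cons h162 chd_nil) t117
theorem h116 : Chd 16 8 Bd 3 n116 := Chd.mk _ c116 n116 (chd_cons h155 (chd_cons h156 (chd_cons h157 (chd_cons h158 (chd_cons h159 (chd_cons h160 (chd_cons h161 chd_nil))))))) t116
theorem h115 : Chd 16 8 Bd 3 n115 := Chd.mk _ c115 n115 chd_nil t115
theorem h114 : Chd 16 8 Bd 3 n114 := Chd.mk _ c114 n114 (chd_cons h152 (chd_cons h153 (chd_cons h154 chd_nil))) t114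
theorem h113 : Chd 16 8 Bd 3 n113 := Chd.mk _ c113 n113 chd_nil t113
theorem h112 : Chd 16 8 Bd 3 n112 := Chd.mk _ c112 n112 chd_nil t112
theorem h111 : Chd 16 8 Bd 3 n111 := Chd.mk _ c111 n111 (chd_cons h150 (chd_cons h151 chd_nil)) t111
theorem h110 : Chd 16 8 Bd 3 n110 := Chd.mk _ c110 n110 chd_nil t110
theorem h109 : Chd 16 8 Bd 3 n109 := Chd.mk _ c109 n109 chd_nil t109
theorem h108 : Chd 16 8 Bd 3 n108 := Chd.mk _ c108 n108 chd_nil t108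
theorem h107 : Chd 16 8 Bd 3 n107 := Chd.mk _ c107 n107 chd_nil t107
theorem h106 : Chd 16 8 Bd 3 n106 := Chd.mk _ c106 n106 chd_nil t106
theorem h105 : Chd 16 8 Bd 3 n105 := Chd.mk _ c105 n105 (chd_cons h147 (chd_cons h148 (chd_cons h149 chd_nil))) t105
theorem h104 : Chd 16 8 Bd 3 n104 := Chd.mk _ c104 n104 (chd_cons h144 (chd_cons h145 (chd_cons h146 chd_nil))) t104
theorem h103 : Chd 16 8 Bd 3 n103 := Chd.mk _ c103 n103 (chd_cons h135 (chd_cons h136 (chd_cons h137 (chd_cons h138 (chd_cons h139 (chd_cons h140 (chd_cons h141 (chd_cons h142 (chd_cons h143 chd_nil))))))))) t103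
theorem h102 : Chd 16 8 Bd 3 n102 := Chd.mk _ c102 n102 chd_nil t102
theorem h101 : Chd 16 8 Bd 3 n101 := Chd.mk _ c101 n101 (chd_cons h134 chd_nil) t101
theorem h100 : Chd 16 8 Bd 3 n100 := Chd.mk _ c100 n100 chd_nil t100
theorem h99 : Chd 16 8 Bd 3 n99 := Chd.mk _ c99 n99 (chd_cons h133 chd_nil) t99
theorem h98 : Chd 16 8 Bd 3 n98 := Chd.mk _ c98 n98 chd_nil t98
theorem h97 : Chd 16 8 Bd 3 n97 := Chd.mk _ c97 n97 chd_nil t97
theorem h96 : Chd 16 8 Bd 3 n96 := Chd.mk _ c96 n96 chd_nil t96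
theorem h95 : Chd 16 8 Bd 3 n95 := Chd.mk _ c95 n95 chd_nil t95
theorem h94 : Chd 16 8 Bd 3 n94 := Chd.mk _ c94 n94 chd_nil t94
theorem h93 : Chd 16 8 Bd 3 n93 := Chd.mk _ c93 n93 chd_nil t93
theorem h92 : Chd 16 8 Bd 3 n92 := Chd.mk _ c92 n92 chd_nil t92
theorem h91 : Chd 16 8 Bd 3 n91 := Chd.mk _ c91 n91 chd_nil t91
theorem h90 : Chd 16 8 Bd 3 n90 := Chd.mk _ c90 n90 chd_nil t90
theorem h89 : Chd 16 8 Bd 3 n89 := Chd.mk _ c89 n89 (chd_cons h132 chd_nil) t89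
theorem h88 : Chd 16 8 Bd 3 n88 := Chd.mk _ c88 n88 (chd_cons h130 (chd_cons h131 chd_nil)) t88
theorem h87 : Chd 16 8 Bd 3 n87 := Chd.mk _ c87 n87 chd_nil t87
theorem h86 : Chd 16 8 Bd 3 n86 := Chd.mk _ c86 n86 chd_nil t86
theorem h85 : Chd 16 8 Bd 3 n85 := Chd.mk _ c85 n85 (chd_cons h129 chd_nil) t85
theorem h84 : Chd 16 8 Bd 3 n84 := Chd.mk _ c84 n84 (chd_cons h127 (chd_cons h128 chd_nil)) t84
theorem h83 : Chd 16 8 Bd 3 n83 := Chd.mk _ c83 n83 chd_nil t83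
theorem h82 : Chd 16 8 Bd 3 n82 := Chd.mk _ c82 n82 chd_nil t82
theorem h81 : Chd 16 8 Bd 3 n81 := Chd.mk _ c81 n81 (chd_cons h126 chd_nil) t81
theorem h80 : Chd 16 8 Bd 3 n80 := Chd.mk _ c80 n80 chd_nil t80
theorem h79 : Chd 16 8 Bd 3 n79 := Chd.mk _ c79 n79 chd_nil t79
theorem h78 : Chd 16 8 Bd 3 n78 := Chd.mk _ c78 n78 chd_nil t78
theorem h77 : Chd 16 8 Bd 3 n77 := Chd.mk _ c77 n77 chd_nil t77
theorem h76 : Chd 16 8 Bd 3 n76 := Chd.mk _ c76 n76 (chd_cons h125 chd_nil) t76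
theorem h75 : Chd 16 8 Bd 3 n75 := Chd.mk _ c75 n75 chd_nil t75
theorem h74 : Chd 16 8 Bd 3 n74 := Chd.mk _ c74 n74 chd_nil t74
theorem h73 : Chd 16 8 Bd 3 n73 := Chd.mk _ c73 n73 (chd_cons h119 (chd_cons h120 (chd_cons h121 (chd_cons h122 (chd_cons h123 (chd_cons h124 chd_nil)))))) t73
theorem h72 : Chd 16 8 Bd 3 n72 := Chd.mk _ c72 n72 (chd_cons h117 (chd_cons h118 chd_nil)) t72
theorem h71 : Chd 16 8 Bd 3 n71 := Chd.mk _ c71 n71 (chd_cons h114 (chd_cons h115 (chd_cons h116 chd_nil))) t71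
theorem h70 : Chd 16 8 Bd 3 n70 := Chd.mk _ c70 n70 chd_nil t70
theorem h69 : Chd 16 8 Bd 3 n69 := Chd.mk _ c69 n69 chd_nil t69
theorem h68 : Chd 16 8 Bd 3 n68 := Chd.mk _ c68 n68 chd_nil t68
theorem h67 : Chd 16 8 Bd 3 n67 := Chd.mk _ c67 n67 (chd_cons h113 chd_nil) t67
theorem h66 : Chd 16 8 Bd 3 n66 := Chd.mk _ c66 n66 chd_nil t66
theorem h65 : Chd 16 8 Bd 3 n65 := Chd.mk _ c65 n65 (chd_cons h111 (chd_cons h112 chd_nil)) t65
theorem h64 : Chd 16 8 Bd 3 n64 := Chd.mk _ c64 n64 chd_nil t64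
theorem h63 : Chd 16 8 Bd 3 n63 := Chd.mk _ c63 n63 (chd_cons h110 chd_nil) t63
theorem h62 : Chd 16 8 Bd 3 n62 := Chd.mk _ c62 n62 (chd_cons h108 (chd_cons h109 chd_nil)) t62
theorem h61 : Chd 16 8 Bd 3 n61 := Chd.mk _ c61 n61 chd_nil t61
theorem h60 : Chd 16 8 Bd 3 n60 := Chd.mk _ c60 n60 (chd_cons h107 chd_nil) t60
theorem h59 : Chd 16 8 Bd 3 n59 := Chd.mk _ c59 n59 (chd_cons h106 chd_nil) t59
theorem h58 : Chd 16 8 Bd 3 n58 := Chd.mk _ c58 n58 chd_nil t58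
theorem h57 : Chd 16 8 Bd 3 n57 := Chd.mk _ c57 n57 (chd_cons h103 (chd_cons h104 (chd_cons h105 chd_nil))) t57
theorem h56 : Chd 16 8 Bd 3 n56 := Chd.mk _ c56 n56 chd_nil t56
theorem h55 : Chd 16 8 Bd 3 n55 := Chd.mk _ c55 n55 chd_nil t55
theorem h54 : Chd 16 8 Bd 3 n54 := Chd.mk _ c54 n54 chd_nil t54
theorem h53 : Chd 16 8 Bd 3 n53 := Chd.mk _ c53 n53 (chd_cons h96 (chd_cons h97 (chd_cons h98 (chd_cons h99 (chd_cons h100 (chd_cons h101 (chd_cons h102 chd_nil))))))) t53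
theorem h52 : Chd 16 8 Bd 3 n52 := Chd.mk _ c52 n52 chd_nil t52
theorem h51 : Chd 16 8 Bd 3 n51 := Chd.mk _ c51 n51 (chd_cons h95 chd_nil) t51
theorem h50 : Chd 16 8 Bd 3 n50 := Chd.mk _ c50 n50 chd_nil t50
theorem h49 : Chd 16 8 Bd 3 n49 := Chd.mk _ c49 n49 (chd_cons h94 chd_nil) t49
theorem h48 : Chd 16 8 Bd 3 n48 := Chd.mk _ c48 n48 chd_nil t48
theorem h47 : Chd 16 8 Bd 3 n47 := Chd.mk _ c47 n47 chd_nil t47
theorem h46 : Chd 16 8 Bd 3 n46 := Chd.mk _ c46 n46 chd_nil t46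
theorem h45 : Chd 16 8 Bd 3 n45 := Chd.mk _ c45 n45 chd_nil t45
theorem h44 : Chd 16 8 Bd 3 n44 := Chd.mk _ c44 n44 chd_nil t44
theorem h43 : Chd 16 8 Bd 3 n43 := Chd.mk _ c43 n43 chd_nil t43
theorem h42 : Chd 16 8 Bd 3 n42 := Chd.mk _ c42 n42 chd_nil t42
theorem h41 : Chd 16 8 Bd 3 n41 := Chd.mk _ c41 n41 (chd_cons h90 (chd_cons h91 (chd_cons h92 (chd_cons h93 chd_nil)))) t41
theorem h40 : Chd 16 8 Bd 3 n40 := Chd.mk _ c40 n40 chd_nil t40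
theorem h39 : Chd 16 8 Bd 3 n39 := Chd.mk _ c39 n39 chd_nil t39
theorem h38 : Chd 16 8 Bd 3 n38 := Chd.mk _ c38 n38 chd_nil t38
theorem h37 : Chd 16 8 Bd 3 n37 := Chd.mk _ c37 n37 chd_nil t37
theorem h36 : Chd 16 8 Bd 3 n36 := Chd.mk _ c36 n36 chd_nil t36
theorem h35 : Chd 16 8 Bd 3 n35 := Chd.mk _ c35 n35 chd_nil t35
theorem h34 : Chd 16 8 Bd 3 n34 := Chd.mk _ c34 n34 (chd_cons h88 (chd_cons h89 chd_nil)) t34
theorem h33 : Chd 16 8 Bd 3 n33 := Chd.mk _ c33 n33 (chd_cons h85 (chd_cons h86 (chd_cons h87 chd_nil))) t33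
theorem h32 : Chd 16 8 Bd 3 n32 := Chd.mk _ c32 n32 (chd_cons h82 (chd_cons h83 (chd_cons h84 chd_nil))) t32
theorem h31 : Chd 16 8 Bd 3 n31 := Chd.mk _ c31 n31 (chd_cons h80 (chd_cons h81 chd_nil)) t31
theorem h30 : Chd 16 8 Bd 3 n30 := Chd.mk _ c30 n30 (chd_cons h79 chd_nil) t30
theorem h29 : Chd 16 8 Bd 3 n29 := Chd.mk _ c29 n29 chd_nil t29
theorem h28 : Chd 16 8 Bd 3 n28 := Chd.mk _ c28 n28 chd_nil t28
theorem h27 : Chd 16 8 Bd 3 n27 := Chd.mk _ c27 n27 chd_nil t27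
theorem h26 : Chd 16 8 Bd 3 n26 := Chd.mk _ c26 n26 (chd_cons h77 (chd_cons h78 chd_nil)) t26
theorem h25 : Chd 16 8 Bd 3 n25 := Chd.mk _ c25 n25 chd_nil t25
theorem h24 : Chd 16 8 Bd 3 n24 := Chd.mk _ c24 n24 chd_nil t24
theorem h23 : Chd 16 8 Bd 3 n23 := Chd.mk _ c23 n23 chd_nil t23
theorem h22 : Chd 16 8 Bd 3 n22 := Chd.mk _ c22 n22 (chd_cons h76 chd_nil) t22
theorem h21 : Chd 16 8 Bd 3 n21 := Chd.mk _ c21 n21 (chd_cons h71 (chd_cons h72 (chd_cons h73 (chd_cons h74 (chd_cons h75 chd_nil))))) t21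
theorem h20 : Chd 16 8 Bd 3 n20 := Chd.mk _ c20 n20 (chd_cons h67 (chd_cons h68 (chd_cons h69 (chd_cons h70 chd_nil)))) t20
theorem h19 : Chd 16 8 Bd 3 n19 := Chd.mk _ c19 n19 (chd_cons h64 (chd_cons h65 (chd_cons h66 chd_nil))) t19
theorem h18 : Chd 16 8 Bd 3 n18 := Chd.mk _ c18 n18 (chd_cons h61 (chd_cons h62 (chd_cons h63 chd_nil))) t18
theorem h17 : Chd 16 8 Bd 3 n17 := Chd.mk _ c17 n17 (chd_cons h57 (chd_cons h58 (chd_cons h59 (chd_cons h60 chd_nil)))) t17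
theorem h16 : Chd 16 8 Bd 3 n16 := Chd.mk _ c16 n16 (chd_cons h54 (chd_cons h55 (chd_cons h56 chd_nil))) t16
theorem h15 : Chd 16 8 Bd 3 n15 := Chd.mk _ c15 n15 (chd_cons h53 chd_nil) t15
theorem h14 : Chd 16 8 Bd 3 n14 := Chd.mk _ c14 n14 chd_nil t14
theorem h13 : Chd 16 8 Bd 3 n13 := Chd.mk _ c13 n13 chd_nil t13
theorem h12 : Chd 16 8 Bd 3 n12 := Chd.mk _ c12 n12 (chd_cons h52 chd_nil) t12
theorem h11 : Chd 16 8 Bd 3 n11 := Chd.mk _ c11 n11 (chd_cons h41 (chd_cons h42 (chd_cons h43 (chd_cons h44 (chd_cons h45 (chd_cons h46 (chd_cons h47 (chd_cons h48 (chd_cons h49 (chd_cons h50 (chd_cons h51 chd_nil))))))))))) t11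
theorem h10 : Chd 16 8 Bd 3 n10 := Chd.mk _ c10 n10 chd_nil t10
theorem h9 : Chd 16 8 Bd 3 n9 := Chd.mk _ c9 n9 chd_nil t9
theorem h8 : Chd 16 8 Bd 3 n8 := Chd.mk _ c8 n8 chd_nil t8
theorem h7 : Chd 16 8 Bd 3 n7 := Chd.mk _ c7 n7 chd_nil t7
theorem h6 : Chd 16 8 Bd 3 n6 := Chd.mk _ c6 n6 (chd_cons h36 (chd_cons h37 (chd_cons h38 (chd_cons h39 (chd_cons h40 chd_nil))))) t6
theorem h5 : Chd 16 8 Bd 3 n5 := Chd.mk _ c5 n5 (chd_cons h29 (chd_cons h30 (chd_cons h31 (chd_cons h32 (chd_cons h33 (chd_cons h34 (chd_cons h35 chd_nil))))))) t5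
theorem h4 : Chd 16 8 Bd 3 n4 := Chd.mk _ c4 n4 (chd_cons h23 (chd_cons h24 (chd_cons h25 (chd_cons h26 (chd_cons h27 (chd_cons h28 chd_nil)))))) t4
theorem h3 : Chd 16 8 Bd 3 n3 := Chd.mk _ c3 n3 (chd_cons h15 (chd_cons h16 (chd_cons h17 (chd_cons h18 (chd_cons h19 (chd_cons h20 (chd_cons h21 (chd_cons h22 chd_nil)))))))) t3
theorem h2 : Chd 16 8 Bd 3 n2 := Chd.mk _ c2 n2 (chd_cons h14 chd_nil) t2
theorem h1 : Chd 16 8 Bd 3 n1 := Chd.mk _ c1 n1 (chd_cons h5 (chd_cons h6 (chd_cons h7 (chd_cons h8 (chd_cons h9 (chd_cons h10 (chd_cons h11 (chd_cons h12 (chd_cons h13 chd_nil))))))))) t1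
theorem h0 : Chd 16 8 Bd 3 n0 := Chd.mk _ c0 n0 (chd_cons h1 (chd_cons h2 (chd_cons h3 (chd_cons h4 chd_nil)))) t0

end Pool.Agent.L5helper44.Thin.W15
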