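import Pool.Agent.L5helper44.Thin.Chk2

/-! The roots of the parts of the search tree. -/

set_option autoImplicit false

namespace Pool.Agent.L5helper44.Thin.W15

/-- the bound for the certificates -/
noncomputable def Bd : ℕ := nat_lit 1000000000000000000000000000000000000000000000000000000000000

noncomputable def n0 : Nd := ⟨nat_lit 0, [], [], []⟩
noncomputable def n1 : Nd := ⟨nat_lit 3, [nat_lit 0, nat_lit 0, nat_lit 1048577], [nat_lit 0x300002, nat_lit 0x104500001, nat_lit 0x80500000], [nat_lit 65, nat_lit 32]⟩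
noncomputable def n2 : Nd := ⟨nat_lit 3, [nat_lit 0, nat_lit 0, nat_lit 1048577], [nat_lit 0x104500001, nat_lit 0x80500000], [nat_lit 34, nat_lit 32]⟩
noncomputable def n3 : Nd := ⟨nat_lit 4, [nat_lit 0, nat_lit 0, nat_lit 1048577, nat_lit 1048577], [nat_lit 0x3104700001, nat_lit 0x80500000], [nat_lit 98, nat_lit 32]⟩
noncomputable def n4 : Nd := ⟨nat_lit 4, [nat_lit 0, nat_lit 0, nat_lit 0, nat_lit 1048577], [nat_lit 0x3104700001, nat_lit 0x2080700000], [nat_lit 65, nat_lit 32]⟩
noncomputable def n5 : Nd := ⟨nat_lit 5, [nat_lit 0, nat_lit 0, nat_lit 1048577, nat_lit 2097155, nat_lit 2097157], [nat_lit 0x204500005, nat_lit 0x188500003, nat_lit 0x300002, nat_lit 0x104500001, nat_lit 0x80500000], [nat_lit 98, nat_lit 65, nat_lit 32]⟩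
noncomputable def n6 : Nd := ⟨nat_lit 7, [nat_lit 0, nat_lit 0, nat_lit 1048577, nat_lit 2097155, nat_lit 2097157, nat_lit 2097157, nat_lit 4194319], [nat_lit 0x28c500017, nat_lit 0x284500015, nat_lit 0x629070000f, nat_lit 0x520c700007, nat_lit 0x830000b, nat_lit 0x5204700005, nat_lit 0x188500003, nat_lit 0x300002, nat_lit 0x104500001, nat_lit 0x80500000], [nat_lit 196, nat_lit 164, nat_lit 98, nat_lit 65, nat_lit 32]⟩
noncomputable def n7 : Nd := ⟨nat_lit 8, [nat_lit 0, nat_lit 0, nat_lit 1048577, nat_lit 2097155, nat_lit 2097157, nat_lit 2097157, nat_lit 4194319, nat_lit 4194327], [nat_lit 0x204500025, nat_lit 0x731470001f, nat_lit 0x728c700017, nat_lit 0x284500015, nat_lit 0x629070000f, nat_lit 0x520c700007, nat_lit 0x830000b, nat_lit 0x5204700005, nat_lit 0x188500003, nat_lit 0x300002, nat_lit 0x104500001, nat_lit 0x80500000], [nat_lit 166, nat_lit 196, nat_lit 164, nat_lit 98, nat_lit 65, nat_lit 32]⟩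
noncomputable def n8 : Nd := ⟨nat_lit 8, [nat_lit 0, nat_lit 0, nat_lit 1048577, nat_lit 2097155, nat_lit 2097157, nat_lit 2097157, nat_lit 4194319, nat_lit 3145749], [nat_lit 0x7284700015, nat_lit 0x629070000f, nat_lit 0x520c700007, nat_lit 0x830000b, nat_lit 0x5204700005, nat_lit 0x188500003, nat_lit 0x300002, nat_lit 0x104500001, nat_lit 0x80500000], [nat_lit 196, nat_lit 164, nat_lit 98, nat_lit 65, nat_lit 32]⟩
noncomputable def n9 : Nd := ⟨nat_lit 7, [nat_lit 0, nat_lit 0, nat_lit 1048577, nat_lit 2097155, nat_lit 2097157, nat_lit 2097157, nat_lit 4194319], [nat_lit 0x284500015, nat_lit 0x629070000f, nat_lit 0x520c700007, nat_lit 0x830000b, nat_lit 0x5204700005, nat_lit 0x188500003, nat_lit 0x300002, nat_lit 0x104500001, nat_lit 0x80500000], [nat_lit 134, nat_lit 164, nat_lit 98, nat_lit 65, nat_lit 32]⟩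
noncomputable def n10 : Nd := ⟨nat_lit 9, [nat_lit 0, nat_lit 0, nat_lit 1048577, nat_lit 2097155, nat_lit 2097157, nat_lit 2097157, nat_lit 4194319, nat_lit 3145749, nat_lit 5242959], [nat_lit 0x829070004f, nat_lit 0x7284700015, nat_lit 0x629070000f, nat_lit 0x520c700007, nat_lit 0x830000b, nat_lit 0x5204700005, nat_lit 0x188500003, nat_lit 0x300002, nat_lit 0x104500001, nat_lit 0x80500000], [nat_lit 134, nat_lit 164, nat_lit 98, nat_lit 65, nat_lit 32]⟩
noncomputable def n11 : Nd := ⟨nat_lit 7, [nat_lit 0, nat_lit 0, nat_lit 1048577, nat_lit 2097155, nat_lit 2097157, nat_lit 2097157, nat_lit 3145739], [nat_lit 0x629070000f, nat_lit 0x520c700007, nat_lit 0x30850000b, nat_lit 0x5204700005, nat_lit 0x188500003, nat_lit 0x300002, nat_lit 0x104500001, nat_lit 0x80500000], [nat_lit 131, nat_lit 164, nat_lit 98, nat_lit 65, nat_lit 32]⟩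
noncomputable def n12 : Nd := ⟨nat_lit 6, [nat_lit 0, nat_lit 0, nat_lit 1048577, nat_lit 2097155, nat_lit 2097155, nat_lit 2097157], [nat_lit 0x284500005, nat_lit 0x4188700003, nat_lit 0x300002, nat_lit 0x104500001, nat_lit 0x80500000], [nat_lit 163, nat_lit 131, nat_lit 65, nat_lit 32]⟩
noncomputable def n13 : Nd := ⟨nat_lit 7, [nat_lit 0, nat_lit 0, nat_lit 1048577, nat_lit 2097155, nat_lit 2097155, nat_lit 2097157, nat_lit 4194343], [nat_lit 0x620c700027, nat_lit 0x4300025, nat_lit 0x520c700007, nat_lit 0x284500005, nat_lit 0x4188700003, nat_lit 0x300002, nat_lit 0x104500001, nat_lit 0x80500000], [nat_lit 101, nat_lit 131, nat_lit 65, nat_lit 32]⟩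
noncomputable def n14 : Nd := ⟨nat_lit 6, [nat_lit 0, nat_lit 0, nat_lit 1048577, nat_lit 2097157, nat_lit 2097157, nat_lit 3145741], [nat_lit 0x520470000d, nat_lit 0x4184700005, nat_lit 0x104500001, nat_lit 0x80500000], [nat_lit 35, nat_lit 131, nat_lit 34, nat_lit 32]⟩
noncomputable def n15 : Nd := ⟨nat_lit 4, [nat_lit 0, nat_lit 0, nat_lit 1048577, nat_lit 1048577], [nat_lit 0x184500005, nat_lit 0x104500009, nat_lit 0x188500003, nat_lit 0x300002, nat_lit 0x3104700001, nat_lit 0x80500000], [nat_lit 65, nat_lit 98, nat_lit 32]⟩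
noncomputable def n16 : Nd := ⟨nat_lit 5, [nat_lit 0, nat_lit 0, nat_lit 1048577, nat_lit 1048577, nat_lit 2097161], [nat_lit 0x184500005, nat_lit 0x4104700009, nat_lit 0x188500003, nat_lit 0x300002, nat_lit 0x3104700001, nat_lit 0x80500000], [nat_lit 65, nat_lit 98, nat_lit 32]⟩
noncomputable def n17 : Nd := ⟨nat_lit 5, [nat_lit 0, nat_lit 0, nat_lit 1048577, nat_lit 1048577, nat_lit 2097155], [nat_lit 0x184500005, nat_lit 0x4188700003, nat_lit 0x300002, nat_lit 0x3104700001, nat_lit 0x80500000], [nat_lit 65, nat_lit 98, nat_lit 32]⟩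
noncomputable def n18 : Nd := ⟨nat_lit 6, [nat_lit 0, nat_lit 0, nat_lit 1048577, nat_lit 1048577, nat_lit 2097155, nat_lit 2097157], [nat_lit 0x188500013, nat_lit 0x104500009, nat_lit 0x5184700005, nat_lit 0x4188700003, nat_lit 0x300002, nat_lit 0x3104700001, nat_lit 0x80500000], [nat_lit 130, nat_lit 65, nat_lit 98, nat_lit 32]⟩
noncomputable def n19 : Nd := ⟨nat_lit 7, [nat_lit 0, nat_lit 0, nat_lit 1048577, nat_lit 1048577, nat_lit 2097155, nat_lit 2097157, nat_lit 3145747], [nat_lit 0x520c700007, nat_lit 0x6188700013, nat_lit 0x104500009, nat_lit 0x5184700005, nat_lit 0x4188700003, nat_lit 0x300002, nat_lit 0x3104700001, nat_lit 0x80500000], [nat_lit 130, nat_lit 65, nat_lit 98, nat_lit 32]⟩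
noncomputable def n20 : Nd := ⟨nat_lit 7, [nat_lit 0, nat_lit 0, nat_lit 1048577, nat_lit 1048577, nat_lit 2097155, nat_lit 2097157, nat_lit 2097161], [nat_lit 0x6104700009, nat_lit 0x5184700005, nat_lit 0x4188700003, nat_lit 0x300002, nat_lit 0x3104700001, nat_lit 0x80500000], [nat_lit 65, nat_lit 98, nat_lit 32]⟩
noncomputable def n21 : Nd := ⟨nat_lit 5, [nat_lit 0, nat_lit 0, nat_lit 1048577, nat_lit 1048577, nat_lit 1048578], [nat_lit 0x4188700003, nat_lit 0x200500002, nat_lit 0x3104700001, nat_lit 0x80500000], [nat_lit 65, nat_lit 98, nat_lit 32]⟩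
noncomputable def n22 : Nd := ⟨nat_lit 5, [nat_lit 0, nat_lit 0, nat_lit 1048577, nat_lit 1048577, nat_lit 2097157], [nat_lit 0x4184700005, nat_lit 0x3104700001, nat_lit 0x80500000], [nat_lit 36, nat_lit 34, nat_lit 98, nat_lit 32]⟩
noncomputable def n23 : Nd := ⟨nat_lit 4, [nat_lit 0, nat_lit 0, nat_lit 0, nat_lit 1048577], [nat_lit 0x184500005, nat_lit 0x80500004, nat_lit 0x188500003, nat_lit 0x100500002, nat_lit 0x3104700001, nat_lit 0x2080700000], [nat_lit 67, nat_lit 97, nat_lit 65, nat_lit 32]⟩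
noncomputable def n24 : Nd := ⟨nat_lit 5, [nat_lit 0, nat_lit 0, nat_lit 0, nat_lit 1048577, nat_lit 1048580], [nat_lit 0x4080700004, nat_lit 0x188500003, nat_lit 0x100500002, nat_lit 0x3104700001, nat_lit 0x2080700000], [nat_lit 67, nat_lit 97, nat_lit 65, nat_lit 32]⟩
noncomputable def n25 : Nd := ⟨nat_lit 5, [nat_lit 0, nat_lit 0, nat_lit 0, nat_lit 1048577, nat_lit 2097155], [nat_lit 0x104500009, nat_lit 0x4188700003, nat_lit 0x100500002, nat_lit 0x3104700001, nat_lit 0x2080700000], [nat_lit 97, nat_lit 65, nat_lit 32]⟩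
noncomputable def n26 : Nd := ⟨nat_lit 6, [nat_lit 0, nat_lit 0, nat_lit 0, nat_lit 1048577, nat_lit 2097155, nat_lit 2097161], [nat_lit 0x80500004, nat_lit 0x5104700009, nat_lit 0x4188700003, nat_lit 0x100500002, nat_lit 0x3104700001, nat_lit 0x2080700000], [nat_lit 97, nat_lit 65, nat_lit 32]⟩
noncomputable def n27 : Nd := ⟨nat_lit 7, [nat_lit 0, nat_lit 0, nat_lit 0, nat_lit 1048577, nat_lit 2097155, nat_lit 2097161, nat_lit 1048580], [nat_lit 0x6080700004, nat_lit 0x5104700009, nat_lit 0x4188700003, nat_lit 0x100500002, nat_lit 0x3104700001, nat_lit 0x2080700000], [nat_lit 67, nat_lit 97, nat_lit 65, nat_lit 32]⟩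
noncomputable def n28 : Nd := ⟨nat_lit 5, [nat_lit 0, nat_lit 0, nat_lit 0, nat_lit 1048577, nat_lit 1048578], [nat_lit 0x4100700002, nat_lit 0x3104700001, nat_lit 0x2080700000], [nat_lit 97, nat_lit 65, nat_lit 32]⟩
noncomputable def n29 : Nd := ⟨nat_lit 11, [nat_lit 0, nat_lit 0, nat_lit 1048577, nat_lit 2097155, nat_lit 2097157, nat_lit 3145749, nat_lit 4194319, nat_lit 4194319, nat_lit 4194357, nat_lit 5243189, nat_lit 6291551], [nat_lit 0xa39470005f, nat_lit 0x731470001f, nat_lit 0x28c500017, nat_lit 0x484500135, nat_lit 0x31050008f, nat_lit 0x39050004f, nat_lit 0x404500035, nat_lit 0x731070000f, nat_lit 0x830000b, nat_lit 0x284500015, nat_lit 0x20c500007, nat_lit 0x204500005, nat_lit 0x188500003, nat_lit 0x300002, nat_lit 0x104500001, nat_lit 0x80500000], [nat_lit 327, nat_lit 196, nat_lit 230, nat_lit 131, nat_lit 98, nat_lit 65, nat_lit 32]⟩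
noncomputable def n30 : Nd := ⟨nat_lit 12, [nat_lit 0, nat_lit 0, nat_lit 1048577, nat_lit 2097155, nat_lit 2097157, nat_lit 3145749, nat_lit 4194319, nat_lit 4194319, nat_lit 4194357, nat_lit 5243023, nat_lit 5243189, nat_lit 6291551], [nat_lit 0x4905000cf, nat_lit 0xb39470005f, nat_lit 0x731470001f, nat_lit 0x28c500017, nat_lit 0x504500135, nat_lit 0x931070008f, nat_lit 0x39050004f, nat_lit 0x404500035, nat_lit 0x731070000f, nat_lit 0x830000b, nat_lit 0x284500015, nat_lit 0x20c500007, nat_lit 0x204500005, nat_lit 0x188500003, nat_lit 0x300002, nat_lit 0x104500001, nat_lit 0x80500000], [nat_lit 196, nat_lit 230, nat_lit 131, nat_lit 98, nat_lit 65, nat_lit 32]⟩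
noncomputable def n31 : Nd := ⟨nat_lit 10, [nat_lit 0, nat_lit 0, nat_lit 1048577, nat_lit 2097155, nat_lit 2097157, nat_lit 3145749, nat_lit 4194319, nat_lit 4194319, nat_lit 4194357, nat_lit 5242959], [nat_lit 0x939070004f, nat_lit 0x404500035, nat_lit 0x731070000f, nat_lit 0x830000b, nat_lit 0x284500015, nat_lit 0x20c500007, nat_lit 0x204500005, nat_lit 0x188500003, nat_lit 0x300002, nat_lit 0x104500001, nat_lit 0x80500000], [nat_lit 196, nat_lit 230, nat_lit 131, nat_lit 98, nat_lit 65, nat_lit 32]⟩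
noncomputable def n32 : Nd := ⟨nat_lit 8, [nat_lit 0, nat_lit 0, nat_lit 1048577, nat_lit 2097155, nat_lit 2097157, nat_lit 3145749, nat_lit 3145739, nat_lit 4194319], [nat_lit 0x731070000f, nat_lit 0x30850000b, nat_lit 0x284500015, nat_lit 0x20c500007, nat_lit 0x204500005, nat_lit 0x188500003, nat_lit 0x300002, nat_lit 0x104500001, nat_lit 0x80500000], [nat_lit 131, nat_lit 98, nat_lit 65, nat_lit 32]⟩
noncomputable def n33 : Nd := ⟨nat_lit 6, [nat_lit 0, nat_lit 0, nat_lit 1048577, nat_lit 2097155, nat_lit 2097157, nat_lit 3145735], [nat_lit 0x830000b, nat_lit 0x520c700007, nat_lit 0x204500005, nat_lit 0x188500003, nat_lit 0x300002, nat_lit 0x104500001, nat_lit 0x80500000], [nat_lit 131, nat_lit 98, nat_lit 65, nat_lit 32]⟩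
noncomputable def n34 : Nd := ⟨nat_lit 8, [nat_lit 0, nat_lit 0, nat_lit 1048577, nat_lit 2097155, nat_lit 2097157, nat_lit 3145735, nat_lit 3145739, nat_lit 3145749], [nat_lit 0x384500015, nat_lit 0x30850000b, nat_lit 0x520c700007, nat_lit 0x204500005, nat_lit 0x188500003, nat_lit 0x300002, nat_lit 0x104500001, nat_lit 0x80500000], [nat_lit 131, nat_lit 98, nat_lit 65, nat_lit 32]⟩
noncomputable def n35 : Nd := ⟨nat_lit 7, [nat_lit 0, nat_lit 0, nat_lit 1048577, nat_lit 2097155, nat_lit 2097157, nat_lit 3145735, nat_lit 3145739], [nat_lit 0x30850000b, nat_lit 0x520c700007, nat_lit 0x204500005, nat_lit 0x188500003, nat_lit 0x300002, nat_lit 0x104500001, nat_lit 0x80500000], [nat_lit 100, nat_lit 98, nat_lit 65, nat_lit 32]⟩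
noncomputable def n36 : Nd := ⟨nat_lit 7, [nat_lit 0, nat_lit 0, nat_lit 1048577, nat_lit 2097155, nat_lit 2097157, nat_lit 2097157, nat_lit 4194319], [nat_lit 0x204500025, nat_lit 0x31450001f, nat_lit 0x28c500017, nat_lit 0x284500015, nat_lit 0x629070000f, nat_lit 0x520c700007, nat_lit 0x830000b, nat_lit 0x5204700005, nat_lit 0x188500003, nat_lit 0x300002, nat_lit 0x104500001, nat_lit 0x80500000], [nat_lit 166, nat_lit 196, nat_lit 164, nat_lit 98, nat_lit 65, nat_lit 32]⟩
noncomputable def n37 : Nd := ⟨nat_lit 8, [nat_lit 0, nat_lit 0, nat_lit 1048577, nat_lit 2097155, nat_lit 2097157, nat_lit 2097157, nat_lit 4194319, nat_lit 5242911], [nat_lit 0x731470001f, nat_lit 0x28c500017, nat_lit 0x284500015, nat_lit 0x629070000f, nat_lit 0x520c700007, nat_lit 0x830000b, nat_lit 0x5204700005, nat_lit 0x188500003, nat_lit 0x300002, nat_lit 0x104500001, nat_lit 0x80500000], [nat_lit 197, nat_lit 196, nat_lit 164, nat_lit 98, nat_lit 65, nat_lit 32]⟩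
noncomputable def n38 : Nd := ⟨nat_lit 9, [nat_lit 0, nat_lit 0, nat_lit 1048577, nat_lit 2097155, nat_lit 2097157, nat_lit 2097157, nat_lit 4194319, nat_lit 5242911, nat_lit 6291551], [nat_lit 0x839470005f, nat_lit 0x29050004f, nat_lit 0x731470001f, nat_lit 0x28c500017, nat_lit 0x284500015, nat_lit 0x629070000f, nat_lit 0x520c700007, nat_lit 0x830000b, nat_lit 0x5204700005, nat_lit 0x188500003, nat_lit 0x300002, nat_lit 0x104500001, nat_lit 0x80500000], [nat_lit 131, nat_lit 230, nat_lit 166, nat_lit 196, nat_lit 164, nat_lit 98, nat_lit 65, nat_lit 32]⟩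
noncomputable def n39 : Nd := ⟨nat_lit 9, [nat_lit 0, nat_lit 0, nat_lit 1048577, nat_lit 2097155, nat_lit 2097157, nat_lit 2097157, nat_lit 4194319, nat_lit 5242911, nat_lit 5242959], [nat_lit 0x31450009f, nat_lit 0x829070004f, nat_lit 0x731470001f, nat_lit 0x28c500017, nat_lit 0x284500015, nat_lit 0x629070000f, nat_lit 0x520c700007, nat_lit 0x830000b, nat_lit 0x5204700005, nat_lit 0x188500003, nat_lit 0x300002, nat_lit 0x104500001, nat_lit 0x80500000], [nat_lit 131, nat_lit 230, nat_lit 166, nat_lit 196, nat_lit 164, nat_lit 98, nat_lit 65, nat_lit 32]⟩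
noncomputable def n40 : Nd := ⟨nat_lit 10, [nat_lit 0, nat_lit 0, nat_lit 1048577, nat_lit 2097155, nat_lit 2097157, nat_lit 2097157, nat_lit 4194319, nat_lit 5242911, nat_lit 5242959, nat_lit 6291615], [nat_lit 0x839470005f, nat_lit 0x931470009f, nat_lit 0x829070004f, nat_lit 0x731470001f, nat_lit 0x28c500017, nat_lit 0x284500015, nat_lit 0x629070000f, nat_lit 0x520c700007, nat_lit 0x830000b, nat_lit 0x5204700005, nat_lit 0x188500003, nat_lit 0x300002, nat_lit 0x104500001, nat_lit 0x80500000], [nat_lit 131, nat_lit 230, nat_lit 166, nat_lit 196, nat_lit 164, nat_lit 98, nat_lit 65, nat_lit 32]⟩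
noncomputable def n41 : Nd := ⟨nat_lit 7, [nat_lit 0, nat_lit 0, nat_lit 1048577, nat_lit 2097155, nat_lit 2097157, nat_lit 2097157, nat_lit 3145739], [nat_lit 0x284500015, nat_lit 0x830004b, nat_lit 0x629070000f, nat_lit 0x520c700007, nat_lit 0x30850000b, nat_lit 0x5204700005, nat_lit 0x188500003, nat_lit 0x300002, nat_lit 0x104500001, nat_lit 0x80500000], [nat_lit 196, nat_lit 131, nat_lit 164, nat_lit 98, nat_lit 65, nat_lit 32]⟩
noncomputable def n42 : Nd := ⟨nat_lit 8, [nat_lit 0, nat_lit 0, nat_lit 1048577, nat_lit 2097155, nat_lit 2097157, nat_lit 2097157, nat_lit 3145739, nat_lit 3145749], [nat_lit 0x29050004f, nat_lit 0x7284700015, nat_lit 0x830004b, nat_lit 0x629070000f, nat_lit 0x520c700007, nat_lit 0x30850000b, nat_lit 0x5204700005, nat_lit 0x188500003, nat_lit 0x300002, nat_lit 0x104500001, nat_lit 0x80500000], [nat_lit 166, nat_lit 196, nat_lit 131, nat_lit 164, nat_lit 98, nat_lit 65, nat_lit 32]⟩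
noncomputable def n43 : Nd := ⟨nat_lit 9, [nat_lit 0, nat_lit 0, nat_lit 1048577, nat_lit 2097155, nat_lit 2097157, nat_lit 2097157, nat_lit 3145739, nat_lit 3145749, nat_lit 5242959], [nat_lit 0x731470001f, nat_lit 0x728c700017, nat_lit 0x829070004f, nat_lit 0x7284700015, nat_lit 0x830004b, nat_lit 0x629070000f, nat_lit 0x520c700007, nat_lit 0x30850000b, nat_lit 0x5204700005, nat_lit 0x188500003, nat_lit 0x300002, nat_lit 0x104500001, nat_lit 0x80500000], [nat_lit 166, nat_lit 196, nat_lit 131, nat_lit 164, nat_lit 98, nat_lit 65, nat_lit 32]⟩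
noncomputable def n44 : Nd := ⟨nat_lit 8, [nat_lit 0, nat_lit 0, nat_lit 1048577, nat_lit 2097155, nat_lit 2097157, nat_lit 2097157, nat_lit 3145739, nat_lit 5242959], [nat_lit 0x729070004f, nat_lit 0x830004b, nat_lit 0x629070000f, nat_lit 0x520c700007, nat_lit 0x30850000b, nat_lit 0x5204700005, nat_lit 0x188500003, nat_lit 0x300002, nat_lit 0x104500001, nat_lit 0x80500000], [nat_lit 134, nat_lit 131, nat_lit 164, nat_lit 98, nat_lit 65, nat_lit 32]⟩
noncomputable def n45 : Nd := ⟨nat_lit 8, [nat_lit 0, nat_lit 0, nat_lit 1048577, nat_lit 2097155, nat_lit 2097157, nat_lit 2097157, nat_lit 3145739, nat_lit 4194379], [nat_lit 0x204500025, nat_lit 0x28c500017, nat_lit 0x284500015, nat_lit 0x38850004b, nat_lit 0x629070000f, nat_lit 0x520c700007, nat_lit 0x30850000b, nat_lit 0x5204700005, nat_lit 0x188500003, nat_lit 0x300002, nat_lit 0x104500001, nat_lit 0x80500000], [nat_lit 131, nat_lit 164, nat_lit 98, nat_lit 65, nat_lit 32]⟩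
noncomputable def n46 : Nd := ⟨nat_lit 10, [nat_lit 0, nat_lit 0, nat_lit 1048577, nat_lit 2097155, nat_lit 2097157, nat_lit 2097157, nat_lit 3145739, nat_lit 4194379, nat_lit 3145765, nat_lit 5242911], [nat_lit 0x83000cb, nat_lit 0x729070004f, nat_lit 0x931470001f, nat_lit 0x8204700025, nat_lit 0x28c500017, nat_lit 0x284500015, nat_lit 0x38850004b, nat_lit 0x629070000f, nat_lit 0x520c700007, nat_lit 0x30850000b, nat_lit 0x5204700005, nat_lit 0x188500003, nat_lit 0x300002, nat_lit 0x104500001, nat_lit 0x80500000], [nat_lit 294, nat_lit 166, nat_lit 196, nat_lit 131, nat_lit 164, nat_lit 98, nat_lit 65, nat_lit 32]⟩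
noncomputable def n47 : Nd := ⟨nat_lit 11, [nat_lit 0, nat_lit 0, nat_lit 1048577, nat_lit 2097155, nat_lit 2097157, nat_lit 2097157, nat_lit 3145739, nat_lit 4194379, nat_lit 3145765, nat_lit 5242911, nat_lit 5243083], [nat_lit 0x204500125, nat_lit 0x404500035, nat_lit 0x5085000cb, nat_lit 0x729070004f, nat_lit 0x931470001f, nat_lit 0x8204700025, nat_lit 0x28c500017, nat_lit 0x284500015, nat_lit 0x38850004b, nat_lit 0x629070000f, nat_lit 0x520c700007, nat_lit 0x30850000b, nat_lit 0x5204700005, nat_lit 0x188500003, nat_lit 0x300002, nat_lit 0x104500001, nat_lit 0x80500000], [nat_lit 196, nat_lit 131, nat_lit 164, nat_lit 98, nat_lit 65, nat_lit 32]⟩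
noncomputable def n48 : Nd := ⟨nat_lit 12, [nat_lit 0, nat_lit 0, nat_lit 1048577, nat_lit 2097155, nat_lit 2097157, nat_lit 2097157, nat_lit 3145739, nat_lit 4194379, nat_lit 3145765, nat_lit 5242911, nat_lit 5243083, nat_lit 4194597], [nat_lit 0xb204700125, nat_lit 0x404500035, nat_lit 0x5085000cb, nat_lit 0x729070004f, nat_lit 0x931470001f, nat_lit 0x8204700025, nat_lit 0x28c500017, nat_lit 0x284500015, nat_lit 0x38850004b, nat_lit 0x629070000f, nat_lit 0x520c700007, nat_lit 0x30850000b, nat_lit 0x5204700005, nat_lit 0x188500003, nat_lit 0x300002, nat_lit 0x104500001, nat_lit 0x80500000], [nat_lit 196, nat_lit 131, nat_lit 164, nat_lit 98, nat_lit 65, nat_lit 32]⟩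
noncomputable def n49 : Nd := ⟨nat_lit 9, [nat_lit 0, nat_lit 0, nat_lit 1048577, nat_lit 2097155, nat_lit 2097157, nat_lit 2097157, nat_lit 3145739, nat_lit 4194379, nat_lit 4194327], [nat_lit 0x828c700017, nat_lit 0x284500015, nat_lit 0x38850004b, nat_lit 0x629070000f, nat_lit 0x520c700007, nat_lit 0x30850000b, nat_lit 0x5204700005, nat_lit 0x188500003, nat_lit 0x300002, nat_lit 0x104500001, nat_lit 0x80500000], [nat_lit 131, nat_lit 164, nat_lit 98, nat_lit 65, nat_lit 32]⟩
noncomputable def n50 : Nd := ⟨nat_lit 9, [nat_lit 0, nat_lit 0, nat_lit 1048577, nat_lit 2097155, nat_lit 2097157, nat_lit 2097157, nat_lit 3145739, nat_lit 4194379, nat_lit 3145749], [nat_lit 0x831470001f, nat_lit 0x828c700017, nat_lit 0x8284700015, nat_lit 0x38850004b, nat_lit 0x629070000f, nat_lit 0x520c700007, nat_lit 0x30850000b, nat_lit 0x5204700005, nat_lit 0x188500003, nat_lit 0x300002, nat_lit 0x104500001, nat_lit 0x80500000], [nat_lit 197, nat_lit 131, nat_lit 164, nat_lit 98, nat_lit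 65, nat_lit 32]⟩
noncomputable def n51 : Nd := ⟨nat_lit 9, [nat_lit 0, nat_lit 0, nat_lit 1048577, nat_lit 2097155, nat_lit 2097157, nat_lit 2097157, nat_lit 3145739, nat_lit 4194379, nat_lit 3145749], [nat_lit 0x8284700015, nat_lit 0x38850004b, nat_lit 0x629070000f, nat_lit 0x520c700007, nat_lit 0x30850000b, nat_lit 0x5204700005, nat_lit 0x188500003, nat_lit 0x300002, nat_lit 0x104500001, nat_lit 0x80500000], [nat_lit 166, nat_lit 131, nat_lit 164, nat_lit 98, nat_lit 65, nat_lit 32]⟩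
noncomputable def n52 : Nd := ⟨nat_lit 7, [nat_lit 0, nat_lit 0, nat_lit 1048577, nat_lit 2097155, nat_lit 2097155, nat_lit 2097157, nat_lit 3145765], [nat_lit 0x20850000b, nat_lit 0x304500025, nat_lit 0x284500005, nat_lit 0x4188700003, nat_lit 0x300002, nat_lit 0x104500001, nat_lit 0x80500000], [nat_lit 98, nat_lit 163, nat_lit 131, nat_lit 65, nat_lit 32]⟩
noncomputable def n53 : Nd := ⟨nat_lit 8, [nat_lit 0, nat_lit 0, nat_lit 1048577, nat_lit 1048577, nat_lit 3145735, nat_lit 3145735, nat_lit 3145739, nat_lit 4194327], [nat_lit 0x728c700017, nat_lit 0x629070000f, nat_lit 0x430000d, nat_lit 0x30850000b, nat_lit 0x520c700007, nat_lit 0x184500005, nat_lit 0x104500009, nat_lit 0x188500003, nat_lit 0x300002, nat_lit 0x3104700001, nat_lit 0x80500000], [nat_lit 131, nat_lit 164, nat_lit 65, nat_lit 98, nat_lit 32]⟩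
noncomputable def n54 : Nd := ⟨nat_lit 7, [nat_lit 0, nat_lit 0, nat_lit 1048577, nat_lit 1048577, nat_lit 2097161, nat_lit 3145735, nat_lit 3145735], [nat_lit 0x104500019, nat_lit 0x20850000b, nat_lit 0x628c700007, nat_lit 0x184500005, nat_lit 0x4104700009, nat_lit 0x188500003, nat_lit 0x300002, nat_lit 0x3104700001, nat_lit 0x80500000], [nat_lit 163, nat_lit 197, nat_lit 65, nat_lit 98, nat_lit 32]⟩
noncomputable def n55 : Nd := ⟨nat_lit 11, [nat_lit 0, nat_lit 0, nat_lit 1048577, nat_lit 1048577, nat_lit 2097161, nat_lit 3145735, nat_lit 3145735, nat_lit 3145753, nat_lit 4194343, nat_lit 4194375, nat_lit 4194457], [nat_lit 0xa104700099, nat_lit 0x38850001b, nat_lit 0x928c700047, nat_lit 0x830c700027, nat_lit 0x7104700019, nat_lit 0x20850000b, nat_lit 0x628c700007, nat_lit 0x184500005, nat_lit 0x4104700009, nat_lit 0x188500003, nat_lit 0x300002, nat_lit 0x3104700001, nat_lit 0x80500000], [nat_lit 163, nat_lit 197, nat_lit 65, nat_lit 98, nat_lit 32]⟩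
noncomputable def n56 : Nd := ⟨nat_lit 7, [nat_lit 0, nat_lit 0, nat_lit 1048577, nat_lit 1048577, nat_lit 2097161, nat_lit 3145735, nat_lit 3145735], [nat_lit 0x20850000b, nat_lit 0x628c700007, nat_lit 0x184500005, nat_lit 0x4104700009, nat_lit 0x188500003, nat_lit 0x300002, nat_lit 0x3104700001, nat_lit 0x80500000], [nat_lit 101, nat_lit 197, nat_lit 65, nat_lit 98, nat_lit 32]⟩
noncomputable def n57 : Nd := ⟨nat_lit 6, [nat_lit 0, nat_lit 0, nat_lit 1048577, nat_lit 1048577, nat_lit 2097155, nat_lit 3145735], [nat_lit 0x104500009, nat_lit 0x520c700007, nat_lit 0x184500005, nat_lit 0x4188700003, nat_lit 0x300002, nat_lit 0x3104700001, nat_lit 0x80500000], [nat_lit 65, nat_lit 98, nat_lit 32]⟩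
noncomputable def n58 : Nd := ⟨nat_lit 9, [nat_lit 0, nat_lit 0, nat_lit 1048577, nat_lit 1048577, nat_lit 2097155, nat_lit 3145735, nat_lit 2097161, nat_lit 4194343, nat_lit 4194327], [nat_lit 0x731070002f, nat_lit 0x828c700017, nat_lit 0x629070000f, nat_lit 0x30450000d, nat_lit 0x620870000b, nat_lit 0x720c700027, nat_lit 0x188500013, nat_lit 0x6104700009, nat_lit 0x520c700007, nat_lit 0x184500005, nat_lit 0x4188700003, nat_lit 0x300002, nat_lit 0x3104700001, nat_lit 0x80500000], [nat_lit 163, nat_lit 133, nat_lit 131, nat_lit 65, nat_lit 98, nat_lit 32]⟩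
noncomputable def n59 : Nd := ⟨nat_lit 8, [nat_lit 0, nat_lit 0, nat_lit 1048577, nat_lit 1048577, nat_lit 2097155, nat_lit 3145735, nat_lit 2097161, nat_lit 3145747], [nat_lit 0x7188700013, nat_lit 0x6104700009, nat_lit 0x520c700007, nat_lit 0x184500005, nat_lit 0x4188700003, nat_lit 0x300002, nat_lit 0x3104700001, nat_lit 0x80500000], [nat_lit 163, nat_lit 131, nat_lit 65, nat_lit 98, nat_lit 32]⟩
noncomputable def n60 : Nd := ⟨nat_lit 7, [nat_lit 0, nat_lit 0, nat_lit 1048577, nat_lit 1048577, nat_lit 2097155, nat_lit 3145735, nat_lit 2097161], [nat_lit 0x6104700009, nat_lit 0x520c700007, nat_lit 0x184500005, nat_lit 0x4188700003, nat_lit 0x300002, nat_lit 0x3104700001, nat_lit 0x80500000], [nat_lit 100, nat_lit 65, nat_lit 98, nat_lit 32]⟩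
noncomputable def n61 : Nd := ⟨nat_lit 6, [nat_lit 0, nat_lit 0, nat_lit 1048577, nat_lit 1048577, nat_lit 2097155, nat_lit 2097157], [nat_lit 0x520c700007, nat_lit 0x188500013, nat_lit 0x104500009, nat_lit 0x5184700005, nat_lit 0x4188700003, nat_lit 0x300002, nat_lit 0x3104700001, nat_lit 0x80500000], [nat_lit 164, nat_lit 131, nat_lit 130, nat_lit 65, nat_lit 98, nat_lit 32]⟩
noncomputable def n62 : Nd := ⟨nat_lit 7, [nat_lit 0, nat_lit 0, nat_lit 1048577, nat_lit 1048577, nat_lit 2097155, nat_lit 2097157, nat_lit 4194327], [nat_lit 0x628c700017, nat_lit 0x520c700007, nat_lit 0x188500013, nat_lit 0x104500009, nat_lit 0x5184700005, nat_lit 0x4188700003, nat_lit 0x300002, nat_lit 0x3104700001, nat_lit 0x80500000], [nat_lit 195, nat_lit 164, nat_lit 100, nat_lit 130, nat_lit 65, nat_lit 98, nat_lit 32]⟩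
noncomputable def n63 : Nd := ⟨nat_lit 7, [nat_lit 0, nat_lit 0, nat_lit 1048577, nat_lit 1048577, nat_lit 2097155, nat_lit 2097157, nat_lit 4194327], [nat_lit 0x628c700017, nat_lit 0x520c700007, nat_lit 0x188500013, nat_lit 0x104500009, nat_lit 0x5184700005, nat_lit 0x4188700003, nat_lit 0x300002, nat_lit 0x3104700001, nat_lit 0x80500000], [nat_lit 197, nat_lit 102, nat_lit 164, nat_lit 100, nat_lit 130, nat_lit 65, nat_lit 98, nat_lit 32]⟩
noncomputable def n64 : Nd := ⟨nat_lit 8, [nat_lit 0, nat_lit 0, nat_lit 1048577, nat_lit 1048577, nat_lit 2097155, nat_lit 2097157, nat_lit 3145747, nat_lit 4194319], [nat_lit 0x729070000f, nat_lit 0x28450000d, nat_lit 0x20850000b, nat_lit 0x520c700007, nat_lit 0x6188700013, nat_lit 0x104500009, nat_lit 0x5184700005, nat_lit 0x4188700003, nat_lit 0x300002, nat_lit 0x3104700001, nat_lit 0x80500000], [nat_lit 131, nat_lit 164, nat_lit 130, nat_lit 65, nat_lit 98, nat_lit 32]⟩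
noncomputable def n65 : Nd := ⟨nat_lit 7, [nat_lit 0, nat_lit 0, nat_lit 1048577, nat_lit 1048577, nat_lit 2097155, nat_lit 2097157, nat_lit 3145747], [nat_lit 0x520c700007, nat_lit 0x6188700013, nat_lit 0x104500009, nat_lit 0x5184700005, nat_lit 0x4188700003, nat_lit 0x300002, nat_lit 0x3104700001, nat_lit 0x80500000], [nat_lit 100, nat_lit 164, nat_lit 130, nat_lit 65, nat_lit 98, nat_lit 32]⟩
noncomputable def n66 : Nd := ⟨nat_lit 8, [nat_lit 0, nat_lit 0, nat_lit 1048577, nat_lit 1048577, nat_lit 2097155, nat_lit 2097157, nat_lit 3145747, nat_lit 3145739], [nat_lit 0x720870000b, nat_lit 0x520c700007, nat_lit 0x6188700013, nat_lit 0x104500009, nat_lit 0x5184700005, nat_lit 0x4188700003, nat_lit 0x300002, nat_lit 0x3104700001, nat_lit 0x80500000], [nat_lit 163, nat_lit 133, nat_lit 130, nat_lit 65, nat_lit 98, nat_lit 32]⟩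
noncomputable def n67 : Nd := ⟨nat_lit 8, [nat_lit 0, nat_lit 0, nat_lit 1048577, nat_lit 1048577, nat_lit 2097155, nat_lit 2097157, nat_lit 2097161, nat_lit 4194327], [nat_lit 0x728c700017, nat_lit 0x520c700007, nat_lit 0x188500013, nat_lit 0x6104700009, nat_lit 0x5184700005, nat_lit 0x4188700003, nat_lit 0x300002, nat_lit 0x3104700001, nat_lit 0x80500000], [nat_lit 100, nat_lit 130, nat_lit 65, nat_lit 98, nat_lit 32]⟩
noncomputable def n68 : Nd := ⟨nat_lit 8, [nat_lit 0, nat_lit 0, nat_lit 1048577, nat_lit 1048577, nat_lit 2097155, nat_lit 2097157, nat_lit 2097161, nat_lit 3145747], [nat_lit 0x620870000b, nat_lit 0x520c700007, nat_lit 0x7188700013, nat_lit 0x6104700009, nat_lit 0x5184700005, nat_lit 0x4188700003, nat_lit 0x300002, nat_lit 0x3104700001, nat_lit 0x80500000], [nat_lit 131, nat_lit 130, nat_lit 65, nat_lit 98, nat_lit 32]⟩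
noncomputable def n69 : Nd := ⟨nat_lit 8, [nat_lit 0, nat_lit 0, nat_lit 1048577, nat_lit 1048577, nat_lit 2097155, nat_lit 2097157, nat_lit 2097161, nat_lit 3145747], [nat_lit 0x728c700017, nat_lit 0x520c700007, nat_lit 0x7188700013, nat_lit 0x6104700009, nat_lit 0x5184700005, nat_lit 0x4188700003, nat_lit 0x300002, nat_lit 0x3104700001, nat_lit 0x80500000], [nat_lit 163, nat_lit 164, nat_lit 100, nat_lit 130, nat_lit 65, nat_lit 98, nat_lit 32]⟩
noncomputable def n70 : Nd := ⟨nat_lit 8, [nat_lit 0, nat_lit 0, nat_lit 1048577, nat_lit 1048577, nat_lit 2097155, nat_lit 2097157, nat_lit 2097161, nat_lit 3145747], [nat_lit 0x184500025, nat_lit 0x728c700017, nat_lit 0x520c700007, nat_lit 0x7188700013, nat_lit 0x6104700009, nat_lit 0x5184700005, nat_lit 0x4188700003, nat_lit 0x300002, nat_lit 0x3104700001, nat_lit 0x80500000], [nat_lit 101, nat_lit 164, nat_lit 100, nat_lit 130, nat_lit 65, nat_lit 98, nat_lit 32]⟩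
noncomputable def n71 : Nd := ⟨nat_lit 6, [nat_lit 0, nat_lit 0, nat_lit 1048577, nat_lit 1048577, nat_lit 1048578, nat_lit 3145735], [nat_lit 0x104500009, nat_lit 0x520c700007, nat_lit 0x184500005, nat_lit 0x4188700003, nat_lit 0x200500002, nat_lit 0x3104700001, nat_lit 0x80500000], [nat_lit 163, nat_lit 65, nat_lit 98, nat_lit 32]⟩
noncomputable def n72 : Nd := ⟨nat_lit 7, [nat_lit 0, nat_lit 0, nat_lit 1048577, nat_lit 1048577, nat_lit 1048578, nat_lit 3145735, nat_lit 2097161], [nat_lit 0x6104700009, nat_lit 0x520c700007, nat_lit 0x184500005, nat_lit 0x4188700003, nat_lit 0x200500002, nat_lit 0x3104700001, nat_lit 0x80500000], [nat_lit 131, nat_lit 163, nat_lit 65, nat_lit 98, nat_lit 32]⟩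
noncomputable def n73 : Nd := ⟨nat_lit 6, [nat_lit 0, nat_lit 0, nat_lit 1048577, nat_lit 1048577, nat_lit 1048578, nat_lit 2097157], [nat_lit 0x520c700007, nat_lit 0x5184700005, nat_lit 0x4188700003, nat_lit 0x200500002, nat_lit 0x3104700001, nat_lit 0x80500000], [nat_lit 131, nat_lit 130, nat_lit 65, nat_lit 98, nat_lit 32]⟩
noncomputable def n74 : Nd := ⟨nat_lit 8, [nat_lit 0, nat_lit 0, nat_lit 1048577, nat_lit 1048577, nat_lit 1048578, nat_lit 2097157, nat_lit 2097161, nat_lit 3145801], [nat_lit 0x7104700049, nat_lit 0x6104700009, nat_lit 0x520c700007, nat_lit 0x5184700005, nat_lit 0x4188700003, nat_lit 0x200500002, nat_lit 0x3104700001, nat_lit 0x80500000], [nat_lit 164, nat_lit 100, nat_lit 130, nat_lit 65, nat_lit 98, nat_lit 32]⟩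
noncomputable def n75 : Nd := ⟨nat_lit 7, [nat_lit 0, nat_lit 0, nat_lit 1048577, nat_lit 1048577, nat_lit 1048578, nat_lit 2097157, nat_lit 2097161], [nat_lit 0x6104700009, nat_lit 0x520c700007, nat_lit 0x5184700005, nat_lit 0x4188700003, nat_lit 0x200500002, nat_lit 0x3104700001, nat_lit 0x80500000], [nat_lit 133, nat_lit 100, nat_lit 130, nat_lit 65, nat_lit 98, nat_lit 32]⟩
noncomputable def n76 : Nd := ⟨nat_lit 5, [nat_lit 0, nat_lit 0, nat_lit 1048577, nat_lit 1048577, nat_lit 2097157], [nat_lit 0x104500009, nat_lit 0x4184700005, nat_lit 0x3104700001, nat_lit 0x80500000], [nat_lit 131, nat_lit 36, nat_lit 34, nat_lit 98, nat_lit 32]⟩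
noncomputable def n77 : Nd := ⟨nat_lit 7, [nat_lit 0, nat_lit 0, nat_lit 0, nat_lit 1048577, nat_lit 2097155, nat_lit 2097161, nat_lit 3145747], [nat_lit 0x6188700013, nat_lit 0x184500005, nat_lit 0x80500004, nat_lit 0x5104700009, nat_lit 0x4188700003, nat_lit 0x100500002, nat_lit 0x3104700001, nat_lit 0x2080700000], [nat_lit 131, nat_lit 67, nat_lit 97, nat_lit 65, nat_lit 32]⟩
noncomputable def n78 : Nd := ⟨nat_lit 7, [nat_lit 0, nat_lit 0, nat_lit 0, nat_lit 1048577, nat_lit 2097155, nat_lit 2097161, nat_lit 2097157], [nat_lit 0x6184700005, nat_lit 0x80500004, nat_lit 0x5104700009, nat_lit 0x4188700003, nat_lit 0x100500002, nat_lit 0x3104700001, nat_lit 0x2080700000], [nat_lit 67, nat_lit 97, nat_lit 65, nat_lit 32]⟩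
noncomputable def n79 : Nd := ⟨nat_lit 14, [nat_lit 0, nat_lit 0, nat_lit 1048577, nat_lit 2097155, nat_lit 2097157, nat_lit 3145749, nat_lit 4194319, nat_lit 4194319, nat_lit 4194357, nat_lit 5243023, nat_lit 5243189, nat_lit 6291551, nat_lit 6292111, nat_lit 6292789], [nat_lit 0x684500535, nat_lit 0xc31070028f, nat_lit 0x4905000cf, nat_lit 0xb39470005f, nat_lit 0x731470001f, nat_lit 0x28c500017, nat_lit 0x504500135, nat_lit 0x931070008f, nat_lit 0x39050004f, nat_lit 0x404500035, nat_lit 0x731070000f, nat_lit 0x830000b, nat_lit 0x284500015, nat_lit 0x20c500007, nat_lit 0x204500005, nat_lit 0x188500003, nat_lit 0x300002, nat_lit 0x104500001, nat_lit 0x80500000], [nat_lit 359, nat_lit 196, nat_lit 230, nat_lit 131, nat_lit 98, nat_lit 65, nat_lit 32]⟩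
noncomputable def n80 : Nd := ⟨nat_lit 12, [nat_lit 0, nat_lit 0, nat_lit 1048577, nat_lit 2097155, nat_lit 2097157, nat_lit 3145749, nat_lit 4194319, nat_lit 4194319, nat_lit 4194357, nat_lit 5242959, nat_lit 5243189, nat_lit 6291615], [nat_lit 0x939470005f, nat_lit 0xb31470009f, nat_lit 0x504500135, nat_lit 0x731470001f, nat_lit 0x28c500017, nat_lit 0x31050008f, nat_lit 0x939070004f, nat_lit 0x404500035, nat_lit 0x731070000f, nat_lit 0x830000b, nat_lit 0x284500015, nat_lit 0x20c500007, nat_lit 0x204500005, nat_lit 0x188500003, nat_lit 0x300002, nat_lit 0x104500001, nat_lit 0x80500000], [nat_lit 196, nat_lit 230, nat_lit 131, nat_lit 98, nat_lit 65, nat_lit 32]⟩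
noncomputable def n81 : Nd := ⟨nat_lit 11, [nat_lit 0, nat_lit 0, nat_lit 1048577, nat_lit 2097155, nat_lit 2097157, nat_lit 3145749, nat_lit 4194319, nat_lit 4194319, nat_lit 4194357, nat_lit 5242959, nat_lit 5243023], [nat_lit 0x839870003f, nat_lit 0x939470005f, nat_lit 0x40c500037, nat_lit 0x731470001f, nat_lit 0x28c500017, nat_lit 0xa31070008f, nat_lit 0x939070004f, nat_lit 0x404500035, nat_lit 0x731070000f, nat_lit 0x830000b, nat_lit 0x284500015, nat_lit 0x20c500007, nat_lit 0x204500005, nat_lit 0x188500003, nat_lit 0x300002, nat_lit 0x104500001, nat_lit 0x80500000], [nat_lit 167, nat_lit 196, nat_lit 230, nat_lit 131, nat_lit 98, nat_lit 65, nat_lit 32]⟩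
noncomputable def n82 : Nd := ⟨nat_lit 12, [nat_lit 0, nat_lit 0, nat_lit 1048577, nat_lit 2097155, nat_lit 2097157, nat_lit 3145749, nat_lit 3145739, nat_lit 4194319, nat_lit 4194357, nat_lit 5243023, nat_lit 5243189, nat_lit 6291551], [nat_lit 0x4905000cf, nat_lit 0xb39470005f, nat_lit 0x731470001f, nat_lit 0x28c500017, nat_lit 0x504500135, nat_lit 0x39050004f, nat_lit 0x830004b, nat_lit 0x931070008f, nat_lit 0x404500035, nat_lit 0x731070000f, nat_lit 0x30850000b, nat_lit 0x284500015, nat_lit 0x20c500007, nat_lit 0x204500005, nat_lit 0x188500003, nat_lit 0x300002, nat_lit 0x104500001, nat_lit 0x80500000], [nat_lit 196, nat_lit 230, nat_lit 228, nat_lit 131, nat_lit 98, nat_lit 65, nat_lit 32]⟩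
noncomputable def n83 : Nd := ⟨nat_lit 12, [nat_lit 0, nat_lit 0, nat_lit 1048577, nat_lit 2097155, nat_lit 2097157, nat_lit 3145749, nat_lit 3145739, nat_lit 4194319, nat_lit 4194357, nat_lit 5243023, nat_lit 5242959, nat_lit 5243189], [nat_lit 0xa39470005f, nat_lit 0x731470001f, nat_lit 0x28c500017, nat_lit 0x584500135, nat_lit 0xa39070004f, nat_lit 0x830004b, nat_lit 0x931070008f, nat_lit 0x404500035, nat_lit 0x731070000f, nat_lit 0x30850000b, nat_lit 0x284500015, nat_lit 0x20c500007, nat_lit 0x204500005, nat_lit 0x188500003, nat_lit 0x300002, nat_lit 0x104500001, nat_lit 0x80500000], [nat_lit 196, nat_lit 230, nat_lit 228, nat_lit 131, nat_lit 98, nat_lit 65, nat_lit 32]⟩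
noncomputable def n84 : Nd := ⟨nat_lit 9, [nat_lit 0, nat_lit 0, nat_lit 1048577, nat_lit 2097155, nat_lit 2097157, nat_lit 3145749, nat_lit 3145739, nat_lit 4194319, nat_lit 4194357], [nat_lit 0x404500035, nat_lit 0x731070000f, nat_lit 0x30850000b, nat_lit 0x284500015, nat_lit 0x20c500007, nat_lit 0x204500005, nat_lit 0x188500003, nat_lit 0x300002, nat_lit 0x104500001, nat_lit 0x80500000], [nat_lit 199, nat_lit 228, nat_lit 131, nat_lit 98, nat_lit 65, nat_lit 32]⟩
noncomputable def n85 : Nd := ⟨nat_lit 7, [nat_lit 0, nat_lit 0, nat_lit 1048577, nat_lit 2097155, nat_lit 2097157, nat_lit 3145735, nat_lit 4194319], [nat_lit 0x629070000f, nat_lit 0x830000b, nat_lit 0x520c700007, nat_lit 0x204500005, nat_lit 0x188500003, nat_lit 0x300002, nat_lit 0x104500001, nat_lit 0x80500000], [nat_lit 164, nat_lit 163, nat_lit 131, nat_lit 98, nat_lit 65, nat_lit 32]⟩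
noncomputable def n86 : Nd := ⟨nat_lit 8, [nat_lit 0, nat_lit 0, nat_lit 1048577, nat_lit 2097155, nat_lit 2097157, nat_lit 3145735, nat_lit 4194319, nat_lit 3145749], [nat_lit 0x384500015, nat_lit 0x20c500027, nat_lit 0x629070000f, nat_lit 0x830000b, nat_lit 0x520c700007, nat_lit 0x204500005, nat_lit 0x188500003, nat_lit 0x300002, nat_lit 0x104500001, nat_lit 0x80500000], [nat_lit 197, nat_lit 133, nat_lit 163, nat_lit 131, nat_lit 98, nat_lit 65, nat_lit 32]⟩
noncomputable def n87 : Nd := ⟨nat_lit 9, [nat_lit 0, nat_lit 0, nat_lit 1048577, nat_lit 2097155, nat_lit 2097157, nat_lit 3145735, nat_lit 4194319, nat_lit 4194343, nat_lit 3145749], [nat_lit 0x731070002f, nat_lit 0x404500015, nat_lit 0x720c700027, nat_lit 0x629070000f, nat_lit 0x830000b, nat_lit 0x520c700007, nat_lit 0x204500005, nat_lit 0x188500003, nat_lit 0x300002, nat_lit 0x104500001, nat_lit 0x80500000], [nat_lit 197, nat_lit 133, nat_lit 163, nat_lit 131, nat_lit 98, nat_lit 65, nat_lit 32]⟩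
noncomputable def n88 : Nd := ⟨nat_lit 8, [nat_lit 0, nat_lit 0, nat_lit 1048577, nat_lit 2097155, nat_lit 2097157, nat_lit 3145735, nat_lit 3145739, nat_lit 3145749], [nat_lit 0x384500015, nat_lit 0x30850000b, nat_lit 0x520c700007, nat_lit 0x204500005, nat_lit 0x188500003, nat_lit 0x300002, nat_lit 0x104500001, nat_lit 0x80500000], [nat_lit 164, nat_lit 163, nat_lit 131, nat_lit 98, nat_lit 65, nat_lit 32]⟩
noncomputable def n89 : Nd := ⟨nat_lit 9, [nat_lit 0, nat_lit 0, nat_lit 1048577, nat_lit 2097155, nat_lit 2097157, nat_lit 3145735, nat_lit 3145739, nat_lit 3145749, nat_lit 4194343], [nat_lit 0x820c700027, nat_lit 0x629070000f, nat_lit 0x384500015, nat_lit 0x30850000b, nat_lit 0x520c700007, nat_lit 0x204500005, nat_lit 0x188500003, nat_lit 0x300002, nat_lit 0x104500001, nat_lit 0x80500000], [nat_lit 133, nat_lit 163, nat_lit 131, nat_lit 98, nat_lit 65, nat_lit 32]⟩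
noncomputable def n90 : Nd := ⟨nat_lit 8, [nat_lit 0, nat_lit 0, nat_lit 1048577, nat_lit 2097155, nat_lit 2097157, nat_lit 2097157, nat_lit 3145739, nat_lit 5242911], [nat_lit 0x204500025, nat_lit 0x731470001f, nat_lit 0x28c500017, nat_lit 0x284500015, nat_lit 0x830004b, nat_lit 0x629070000f, nat_lit 0x520c700007, nat_lit 0x30850000b, nat_lit 0x5204700005, nat_lit 0x188500003, nat_lit 0x300002, nat_lit 0x104500001, nat_lit 0x80500000], [nat_lit 196, nat_lit 131, nat_lit 164, nat_lit 98, nat_lit 65, nat_lit 32]⟩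
noncomputable def n91 : Nd := ⟨nat_lit 9, [nat_lit 0, nat_lit 0, nat_lit 1048577, nat_lit 2097155, nat_lit 2097157, nat_lit 2097157, nat_lit 3145739, nat_lit 5242911, nat_lit 3145765], [nat_lit 0x29050004f, nat_lit 0x8204700025, nat_lit 0x731470001f, nat_lit 0x28c500017, nat_lit 0x284500015, nat_lit 0x830004b, nat_lit 0x629070000f, nat_lit 0x520c700007, nat_lit 0x30850000b, nat_lit 0x5204700005, nat_lit 0x188500003, nat_lit 0x300002, nat_lit 0x104500001, nat_lit 0x80500000], [nat_lit 166, nat_lit 196, nat_lit 131, nat_lit 164, nat_lit 98, nat_lit 65, nat_lit 32]⟩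
noncomputable def n92 : Nd := ⟨nat_lit 10, [nat_lit 0, nat_lit 0, nat_lit 1048577, nat_lit 2097155, nat_lit 2097157, nat_lit 2097157, nat_lit 3145739, nat_lit 5242911, nat_lit 3145765, nat_lit 5242959], [nat_lit 0x929070004f, nat_lit 0x8204700025, nat_lit 0x731470001f, nat_lit 0x28c500017, nat_lit 0x284500015, nat_lit 0x830004b, nat_lit 0x629070000f, nat_lit 0x520c700007, nat_lit 0x30850000b, nat_lit 0x5204700005, nat_lit 0x188500003, nat_lit 0x300002, nat_lit 0x104500001, nat_lit 0x80500000], [nat_lit 166, nat_lit 196, nat_lit 131, nat_lit 164, nat_lit 98, nat_lit 65, nat_lit 32]⟩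
noncomputable def n93 : Nd := ⟨nat_lit 9, [nat_lit 0, nat_lit 0, nat_lit 1048577, nat_lit 2097155, nat_lit 2097157, nat_lit 2097157, nat_lit 3145739, nat_lit 4194327, nat_lit 5242959], [nat_lit 0x731470001f, nat_lit 0x829070004f, nat_lit 0x728c700017, nat_lit 0x284500015, nat_lit 0x830004b, nat_lit 0x629070000f, nat_lit 0x520c700007, nat_lit 0x30850000b, nat_lit 0x5204700005, nat_lit 0x188500003, nat_lit 0x300002, nat_lit 0x104500001, nat_lit 0x80500000], [nat_lit 196, nat_lit 131, nat_lit 164, nat_lit 98, nat_lit 65, nat_lit 32]⟩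
noncomputable def n94 : Nd := ⟨nat_lit 10, [nat_lit 0, nat_lit 0, nat_lit 1048577, nat_lit 2097155, nat_lit 2097157, nat_lit 2097157, nat_lit 3145739, nat_lit 4194379, nat_lit 4194327, nat_lit 3145765], [nat_lit 0x839470005f, nat_lit 0x729070004f, nat_lit 0x931070002f, nat_lit 0x920c700027, nat_lit 0x831470001f, nat_lit 0x9204700025, nat_lit 0x828c700017, nat_lit 0x284500015, nat_lit 0x38850004b, nat_lit 0x629070000f, nat_lit 0x520c700007, nat_lit 0x30850000b, nat_lit 0x5204700005, nat_lit 0x188500003, nat_lit 0x300002, nat_lit 0x104500001, nat_lit 0x80500000], [nat_lit 196, nat_lit 166, nat_lit 131, nat_lit 164, nat_lit 98, nat_lit 65, nat_lit 32]⟩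
noncomputable def n95 : Nd := ⟨nat_lit 10, [nat_lit 0, nat_lit 0, nat_lit 1048577, nat_lit 2097155, nat_lit 2097157, nat_lit 2097157, nat_lit 3145739, nat_lit 4194379, nat_lit 3145749, nat_lit 3145765], [nat_lit 0x9204700025, nat_lit 0x831470001f, nat_lit 0x828c700017, nat_lit 0x8284700015, nat_lit 0x38850004b, nat_lit 0x629070000f, nat_lit 0x520c700007, nat_lit 0x30850000b, nat_lit 0x5204700005, nat_lit 0x188500003, nat_lit 0x300002, nat_lit 0x104500001, nat_lit 0x80500000], [nat_lit 196, nat_lit 166, nat_lit 131, nat_lit 164, nat_lit 98, nat_lit 65, nat_lit 32]⟩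
noncomputable def n96 : Nd := ⟨nat_lit 9, [nat_lit 0, nat_lit 0, nat_lit 1048577, nat_lit 1048577, nat_lit 3145735, nat_lit 3145735, nat_lit 3145739, nat_lit 4194327, nat_lit 5242927], [nat_lit 0x731470001f, nat_lit 0x831070002f, nat_lit 0x20c500027, nat_lit 0x728c700017, nat_lit 0x629070000f, nat_lit 0x430000d, nat_lit 0x30850000b, nat_lit 0x520c700007, nat_lit 0x184500005, nat_lit 0x104500009, nat_lit 0x188500003, nat_lit 0x300002, nat_lit 0x3104700001, nat_lit 0x80500000], [nat_lit 229, nat_lit 131, nat_lit 164, nat_lit 65, nat_lit 98, nat_lit 32]⟩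
noncomputable def n97 : Nd := ⟨nat_lit 10, [nat_lit 0, nat_lit 0, nat_lit 1048577, nat_lit 1048577, nat_lit 3145735, nat_lit 3145735, nat_lit 3145739, nat_lit 4194327, nat_lit 4194343, nat_lit 5242959], [nat_lit 0x929070004f, nat_lit 0x731470001f, nat_lit 0x830004b, nat_lit 0x820c700027, nat_lit 0x728c700017, nat_lit 0x629070000f, nat_lit 0x430000d, nat_lit 0x30850000b, nat_lit 0x520c700007, nat_lit 0x184500005, nat_lit 0x104500009, nat_lit 0x188500003, nat_lit 0x300002, nat_lit 0x3104700001, nat_lit 0x80500000], [nat_lit 197, nat_lit 131, nat_lit 164, nat_lit 65, nat_lit 98, nat_lit 32]⟩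
noncomputable def n98 : Nd := ⟨nat_lit 9, [nat_lit 0, nat_lit 0, nat_lit 1048577, nat_lit 1048577, nat_lit 3145735, nat_lit 3145735, nat_lit 3145739, nat_lit 4194327, nat_lit 4194343], [nat_lit 0x731470001f, nat_lit 0x830004b, nat_lit 0x820c700027, nat_lit 0x728c700017, nat_lit 0x629070000f, nat_lit 0x430000d, nat_lit 0x30850000b, nat_lit 0x520c700007, nat_lit 0x184500005, nat_lit 0x104500009, nat_lit 0x188500003, nat_lit 0x300002, nat_lit 0x3104700001, nat_lit 0x80500000], [nat_lit 166, nat_lit 131, nat_lit 164, nat_lit 65, nat_lit 98, nat_lit 32]⟩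
noncomputable def n99 : Nd := ⟨nat_lit 10, [nat_lit 0, nat_lit 0, nat_lit 1048577, nat_lit 1048577, nat_lit 3145735, nat_lit 3145735, nat_lit 3145739, nat_lit 4194327, nat_lit 4194343, nat_lit 4194379], [nat_lit 0x20c500127, nat_lit 0x929070004f, nat_lit 0x731470001f, nat_lit 0x48850004b, nat_lit 0x820c700027, nat_lit 0x728c700017, nat_lit 0x629070000f, nat_lit 0x430000d, nat_lit 0x30850000b, nat_lit 0x520c700007, nat_lit 0x184500005, nat_lit 0x104500009, nat_lit 0x188500003, nat_lit 0x300002, nat_lit 0x3104700001, nat_lit 0x80500000], [nat_lit 197, nat_lit 131, nat_lit 164, nat_lit 65, nat_lit 98, nat_lit 32]⟩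
noncomputable def n100 : Nd := ⟨nat_lit 11, [nat_lit 0, nat_lit 0, nat_lit 1048577, nat_lit 1048577, nat_lit 3145735, nat_lit 3145735, nat_lit 3145739, nat_lit 4194327, nat_lit 4194343, nat_lit 4194379, nat_lit 5243175], [nat_lit 0x28c500097, nat_lit 0x830024b, nat_lit 0xa20c700127, nat_lit 0x929070004f, nat_lit 0x731470001f, nat_lit 0x48850004b, nat_lit 0x820c700027, nat_lit 0x728c700017, nat_lit 0x629070000f, nat_lit 0x430000d, nat_lit 0x30850000b, nat_lit 0x520c700007, nat_lit 0x184500005, nat_lit 0x104500009, nat_lit 0x188500003, nat_lit 0x300002, nat_lit 0x3104700001, nat_lit 0x80500000], [nat_lit 229, nat_lit 199, nat_lit 197, nat_lit 131, nat_lit 164, nat_lit 65, nat_lit 98, nat_lit 32]⟩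
noncomputable def n101 : Nd := ⟨nat_lit 12, [nat_lit 0, nat_lit 0, nat_lit 1048577, nat_lit 1048577, nat_lit 3145735, nat_lit 3145735, nat_lit 3145739, nat_lit 4194327, nat_lit 4194343, nat_lit 4194379, nat_lit 5243175, nat_lit 5243467], [nat_lit 0x58850024b, nat_lit 0xa20c700127, nat_lit 0x929070004f, nat_lit 0x731470001f, nat_lit 0x48850004b, nat_lit 0x820c700027, nat_lit 0x728c700017, nat_lit 0x629070000f, nat_lit 0x430000d, nat_lit 0x30850000b, nat_lit 0x520c700007, nat_lit 0x184500005, nat_lit 0x104500009, nat_lit 0x188500003, nat_lit 0x300002, nat_lit 0x3104700001, nat_lit 0x80500000], [nat_lit 197, nat_lit 131, nat_lit 164, nat_lit 65, nat_lit 98, nat_lit 32]⟩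
noncomputable def n102 : Nd := ⟨nat_lit 10, [nat_lit 0, nat_lit 0, nat_lit 1048577, nat_lit 1048577, nat_lit 3145735, nat_lit 3145735, nat_lit 3145739, nat_lit 4194327, nat_lit 4194343, nat_lit 4194379], [nat_lit 0x731470001f, nat_lit 0x48850004b, nat_lit 0x820c700027, nat_lit 0x728c700017, nat_lit 0x629070000f, nat_lit 0x430000d, nat_lit 0x30850000b, nat_lit 0x520c700007, nat_lit 0x184500005, nat_lit 0x104500009, nat_lit 0x188500003, nat_lit 0x300002, nat_lit 0x3104700001, nat_lit 0x80500000], [nat_lit 166, nat_lit 131, nat_lit 164, nat_lit 65, nat_lit 98, nat_lit 32]⟩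
noncomputable def n103 : Nd := ⟨nat_lit 6, [nat_lit 0, nat_lit 0, nat_lit 1048577, nat_lit 1048577, nat_lit 2097155, nat_lit 3145735], [nat_lit 0x430000d, nat_lit 0x104500009, nat_lit 0x520c700007, nat_lit 0x184500005, nat_lit 0x4188700003, nat_lit 0x300002, nat_lit 0x3104700001, nat_lit 0x80500000], [nat_lit 131, nat_lit 65, nat_lit 98, nat_lit 32]⟩
noncomputable def n104 : Nd := ⟨nat_lit 7, [nat_lit 0, nat_lit 0, nat_lit 1048577, nat_lit 1048577, nat_lit 2097155, nat_lit 3145735, nat_lit 3145741], [nat_lit 0x188500013, nat_lit 0x30450000d, nat_lit 0x104500009, nat_lit 0x520c700007, nat_lit 0x184500005, nat_lit 0x4188700003, nat_lit 0x300002, nat_lit 0x3104700001, nat_lit 0x80500000], [nat_lit 130, nat_lit 65, nat_lit 98, nat_lit 32]⟩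
noncomputable def n105 : Nd := ⟨nat_lit 8, [nat_lit 0, nat_lit 0, nat_lit 1048577, nat_lit 1048577, nat_lit 2097155, nat_lit 3145735, nat_lit 3145741, nat_lit 3145747], [nat_lit 0x20850000b, nat_lit 0x7188700013, nat_lit 0x30450000d, nat_lit 0x104500009, nat_lit 0x520c700007, nat_lit 0x184500005, nat_lit 0x4188700003, nat_lit 0x300002, nat_lit 0x3104700001, nat_lit 0x80500000], [nat_lit 131, nat_lit 130, nat_lit 65, nat_lit 98, nat_lit 32]⟩
noncomputable def n106 : Nd := ⟨nat_lit 10, [nat_lit 0, nat_lit 0, nat_lit 1048577, nat_lit 1048577, nat_lit 2097155, nat_lit 3145735, nat_lit 2097161, nat_lit 3145747, nat_lit 4194343, nat_lit 4194451], [nat_lit 0x831070002f, nat_lit 0x9188700093, nat_lit 0x728c700017, nat_lit 0x629070000f, nat_lit 0x30450000d, nat_lit 0x620870000b, nat_lit 0x820c700027, nat_lit 0x7188700013, nat_lit 0x6104700009, nat_lit 0x520c700007, nat_lit 0x184500005, nat_lit 0x4188700003, nat_lit 0x300002, nat_lit 0x3104700001, nat_lit 0x80500000], [nat_lit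 133, nat_lit 163, nat_lit 131, nat_lit 65, nat_lit 98, nat_lit 32]⟩
noncomputable def n107 : Nd := ⟨nat_lit 7, [nat_lit 0, nat_lit 0, nat_lit 1048577, nat_lit 1048577, nat_lit 2097155, nat_lit 3145735, nat_lit 2097161], [nat_lit 0x188500013, nat_lit 0x6104700009, nat_lit 0x520c700007, nat_lit 0x184500005, nat_lit 0x4188700003, nat_lit 0x300002, nat_lit 0x3104700001, nat_lit 0x80500000], [nat_lit 164, nat_lit 100, nat_lit 65, nat_lit 98, nat_lit 32]⟩
noncomputable def n108 : Nd := ⟨nat_lit 8, [nat_lit 0, nat_lit 0, nat_lit 1048577, nat_lit 1048577, nat_lit 2097155, nat_lit 2097157, nat_lit 4194327, nat_lit 4194343], [nat_lit 0x720c700027, nat_lit 0x184500025, nat_lit 0x628c700017, nat_lit 0x520c700007, nat_lit 0x188500013, nat_lit 0x104500009, nat_lit 0x5184700005, nat_lit 0x4188700003, nat_lit 0x300002, nat_lit 0x3104700001, nat_lit 0x80500000], [nat_lit 195, nat_lit 164, nat_lit 100, nat_lit 130, nat_lit 65, nat_lit 98, nat_lit 32]⟩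
noncomputable def n109 : Nd := ⟨nat_lit 8, [nat_lit 0, nat_lit 0, nat_lit 1048577, nat_lit 1048577, nat_lit 2097155, nat_lit 2097157, nat_lit 4194327, nat_lit 3145765], [nat_lit 0x20850000b, nat_lit 0x7184700025, nat_lit 0x628c700017, nat_lit 0x520c700007, nat_lit 0x188500013, nat_lit 0x104500009, nat_lit 0x5184700005, nat_lit 0x4188700003, nat_lit 0x300002, nat_lit 0x3104700001, nat_lit 0x80500000], [nat_lit 195, nat_lit 164, nat_lit 100, nat_lit 130, nat_lit 65, nat_lit 98, nat_lit 32]⟩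
noncomputable def n110 : Nd := ⟨nat_lit 7, [nat_lit 0, nat_lit 0, nat_lit 1048577, nat_lit 1048577, nat_lit 2097155, nat_lit 2097157, nat_lit 4194327], [nat_lit 0x20c500027, nat_lit 0x184500025, nat_lit 0x628c700017, nat_lit 0x520c700007, nat_lit 0x188500013, nat_lit 0x104500009, nat_lit 0x5184700005, nat_lit 0x4188700003, nat_lit 0x300002, nat_lit 0x3104700001, nat_lit 0x80500000], [nat_lit 197, nat_lit 102, nat_lit 164, nat_lit 100, nat_lit 130, nat_lit 65, nat_lit 98, nat_lit 32]⟩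
noncomputable def n111 : Nd := ⟨nat_lit 7, [nat_lit 0, nat_lit 0, nat_lit 1048577, nat_lit 1048577, nat_lit 2097155, nat_lit 2097157, nat_lit 3145747], [nat_lit 0x628c700017, nat_lit 0x20850000b, nat_lit 0x520c700007, nat_lit 0x6188700013, nat_lit 0x104500009, nat_lit 0x5184700005, nat_lit 0x4188700003, nat_lit 0x300002, nat_lit 0x3104700001, nat_lit 0x80500000], [nat_lit 101, nat_lit 100, nat_lit 164, nat_lit 130, nat_lit 65, nat_lit 98, nat_lit 32]⟩
noncomputable def n112 : Nd := ⟨nat_lit 8, [nat_lit 0, nat_lit 0, nat_lit 1048577, nat_lit 1048577, nat_lit 2097155, nat_lit 2097157, nat_lit 3145747, nat_lit 3145739], [nat_lit 0x720870000b, nat_lit 0x520c700007, nat_lit 0x6188700013, nat_lit 0x104500009, nat_lit 0x5184700005, nat_lit 0x4188700003, nat_lit 0x300002, nat_lit 0x3104700001, nat_lit 0x80500000], [nat_lit 100, nat_lit 164, nat_lit 130, nat_lit 65, nat_lit 98, nat_lit 32]⟩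
noncomputable def n113 : Nd := ⟨nat_lit 8, [nat_lit 0, nat_lit 0, nat_lit 1048577, nat_lit 1048577, nat_lit 2097155, nat_lit 2097157, nat_lit 2097161, nat_lit 4194327], [nat_lit 0x184500025, nat_lit 0x728c700017, nat_lit 0x520c700007, nat_lit 0x188500013, nat_lit 0x6104700009, nat_lit 0x5184700005, nat_lit 0x4188700003, nat_lit 0x300002, nat_lit 0x3104700001, nat_lit 0x80500000], [nat_lit 227, nat_lit 100, nat_lit 130, nat_lit 65, nat_lit 98, nat_lit 32]⟩
noncomputable def n114 : Nd := ⟨nat_lit 6, [nat_lit 0, nat_lit 0, nat_lit 1048577, nat_lit 1048577, nat_lit 1048578, nat_lit 3145735], [nat_lit 0x430000d, nat_lit 0x104500009, nat_lit 0x520c700007, nat_lit 0x184500005, nat_lit 0x4188700003, nat_lit 0x200500002, nat_lit 0x3104700001, nat_lit 0x80500000], [nat_lit 133, nat_lit 163, nat_lit 65, nat_lit 98, nat_lit 32]⟩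
noncomputable def n115 : Nd := ⟨nat_lit 9, [nat_lit 0, nat_lit 0, nat_lit 1048577, nat_lit 1048577, nat_lit 1048578, nat_lit 3145735, nat_lit 3145741, nat_lit 4194343, nat_lit 4194327], [nat_lit 0x828c700017, nat_lit 0x188500013, nat_lit 0x300012, nat_lit 0x720c700027, nat_lit 0x629070000f, nat_lit 0x20850000b, nat_lit 0x30450000d, nat_lit 0x104500009, nat_lit 0x520c700007, nat_lit 0x184500005, nat_lit 0x4188700003, nat_lit 0x200500002, nat_lit 0x3104700001, nat_lit 0x80500000], [nat_lit 164, nat_lit 131, nat_lit 163, nat_lit 65, nat_lit 98, nat_lit 32]⟩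
noncomputable def n116 : Nd := ⟨nat_lit 7, [nat_lit 0, nat_lit 0, nat_lit 1048577, nat_lit 1048577, nat_lit 1048578, nat_lit 3145735, nat_lit 3145741], [nat_lit 0x629070000f, nat_lit 0x20850000b, nat_lit 0x30450000d, nat_lit 0x104500009, nat_lit 0x520c700007, nat_lit 0x184500005, nat_lit 0x4188700003, nat_lit 0x200500002, nat_lit 0x3104700001, nat_lit 0x80500000], [nat_lit 133, nat_lit 131, nat_lit 163, nat_lit 65, nat_lit 98, nat_lit 32]⟩
noncomputable def n117 : Nd := ⟨nat_lit 8, [nat_lit 0, nat_lit 0, nat_lit 1048577, nat_lit 1048577, nat_lit 1048578, nat_lit 3145735, nat_lit 2097161, nat_lit 4194343], [nat_lit 0x300012, nat_lit 0x629070000f, nat_lit 0x30450000d, nat_lit 0x620870000b, nat_lit 0x720c700027, nat_lit 0x6104700009, nat_lit 0x520c700007, nat_lit 0x184500005, nat_lit 0x4188700003, nat_lit 0x200500002, nat_lit 0x3104700001, nat_lit 0x80500000], [nat_lit 133, nat_lit 131, nat_lit 163, nat_lit 65, nat_lit 98, nat_lit 32]⟩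
noncomputable def n118 : Nd := ⟨nat_lit 9, [nat_lit 0, nat_lit 0, nat_lit 1048577, nat_lit 1048577, nat_lit 1048578, nat_lit 3145735, nat_lit 2097161, nat_lit 4194343, nat_lit 2097170], [nat_lit 0x828c700017, nat_lit 0x8188700013, nat_lit 0x400500012, nat_lit 0x629070000f, nat_lit 0x30450000d, nat_lit 0x620870000b, nat_lit 0x720c700027, nat_lit 0x6104700009, nat_lit 0x520c700007, nat_lit 0x184500005, nat_lit 0x4188700003, nat_lit 0x200500002, nat_lit 0x3104700001, nat_lit 0x80500000], [nat_lit 133, nat_lit 131, nat_lit 163, nat_lit 65, nat_lit 98, nat_lit 32]⟩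
noncomputable def n119 : Nd := ⟨nat_lit 6, [nat_lit 0, nat_lit 0, nat_lit 1048577, nat_lit 1048577, nat_lit 1048578, nat_lit 2097157], [nat_lit 0x300012, nat_lit 0x520c700007, nat_lit 0x5184700005, nat_lit 0x4188700003, nat_lit 0x200500002, nat_lit 0x3104700001, nat_lit 0x80500000], [nat_lit 164, nat_lit 131, nat_lit 130, nat_lit 65, nat_lit 98, nat_lit 32]⟩
noncomputable def n120 : Nd := ⟨nat_lit 8, [nat_lit 0, nat_lit 0, nat_lit 1048577, nat_lit 1048577, nat_lit 1048578, nat_lit 2097157, nat_lit 2097170, nat_lit 2097161], [nat_lit 0x7104700009, nat_lit 0x300500012, nat_lit 0x520c700007, nat_lit 0x5184700005, nat_lit 0x4188700003, nat_lit 0x200500002, nat_lit 0x3104700001, nat_lit 0x80500000], [nat_lit 164, nat_lit 131, nat_lit 130, nat_lit 65, nat_lit 98, nat_lit 32]⟩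
noncomputable def n121 : Nd := ⟨nat_lit 6, [nat_lit 0, nat_lit 0, nat_lit 1048577, nat_lit 1048577, nat_lit 1048578, nat_lit 2097157], [nat_lit 0x300012, nat_lit 0x520c700007, nat_lit 0x5184700005, nat_lit 0x4188700003, nat_lit 0x200500002, nat_lit 0x3104700001, nat_lit 0x80500000], [nat_lit 163, nat_lit 133, nat_lit 131, nat_lit 130, nat_lit 65, nat_lit 98, nat_lit 32]⟩
noncomputable def n122 : Nd := ⟨nat_lit 9, [nat_lit 0, nat_lit 0, nat_lit 1048577, nat_lit 1048577, nat_lit 1048578, nat_lit 2097157, nat_lit 2097170, nat_lit 3145739, nat_lit 4194343], [nat_lit 0x839070002f, nat_lit 0x430002d, nat_lit 0x628c700017, nat_lit 0x6188700013, nat_lit 0x729070000f, nat_lit 0x28450000d, nat_lit 0x820c700027, nat_lit 0x184500025, nat_lit 0x720870000b, nat_lit 0x104500009, nat_lit 0x300500012, nat_lit 0x520c700007, nat_lit 0x5184700005, nat_lit 0x4188700003, nat_lit 0x200500002, nat_lit 0x3104700001, nat_lit 0x80500000], [nat_lit 163, nat_lit 133, nat_lit 131, nat_lit 130,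 nat_lit 65, nat_lit 98, nat_lit 32]⟩
noncomputable def n123 : Nd := ⟨nat_lit 8, [nat_lit 0, nat_lit 0, nat_lit 1048577, nat_lit 1048577, nat_lit 1048578, nat_lit 2097157, nat_lit 2097170, nat_lit 2097161], [nat_lit 0x6188700013, nat_lit 0x7104700009, nat_lit 0x300500012, nat_lit 0x520c700007, nat_lit 0x5184700005, nat_lit 0x4188700003, nat_lit 0x200500002, nat_lit 0x3104700001, nat_lit 0x80500000], [nat_lit 163, nat_lit 133, nat_lit 131, nat_lit 130, nat_lit 65, nat_lit 98, nat_lit 32]⟩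
noncomputable def n124 : Nd := ⟨nat_lit 6, [nat_lit 0, nat_lit 0, nat_lit 1048577, nat_lit 1048577, nat_lit 1048578, nat_lit 2097157], [nat_lit 0x520c700007, nat_lit 0x5184700005, nat_lit 0x4188700003, nat_lit 0x200500002, nat_lit 0x3104700001, nat_lit 0x80500000], [nat_lit 101, nat_lit 133, nat_lit 131, nat_lit 130, nat_lit 65, nat_lit 98, nat_lit 32]⟩
noncomputable def n125 : Nd := ⟨nat_lit 7, [nat_lit 0, nat_lit 0, nat_lit 1048577, nat_lit 1048577, nat_lit 2097157, nat_lit 3145741, nat_lit 3145749], [nat_lit 0x6184700015, nat_lit 0x520470000d, nat_lit 0x104500009, nat_lit 0x4184700005, nat_lit 0x3104700001, nat_lit 0x80500000], [nat_lit 161, nat_lit 131, nat_lit 36, nat_lit 34, nat_lit 98, nat_lit 32]⟩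
noncomputable def n126 : Nd := ⟨nat_lit 13, [nat_lit 0, nat_lit 0, nat_lit 1048577, nat_lit 2097155, nat_lit 2097157, nat_lit 3145749, nat_lit 4194319, nat_lit 4194319, nat_lit 4194357, nat_lit 5242959, nat_lit 5243023, nat_lit 6292623, nat_lit 5243189], [nat_lit 0x604500135, nat_lit 0xb31070048f, nat_lit 0x839870003f, nat_lit 0x939470005f, nat_lit 0x40c500037, nat_lit 0x731470001f, nat_lit 0x28c500017, nat_lit 0xa31070008f, nat_lit 0x939070004f, nat_lit 0x404500035, nat_lit 0x731070000f, nat_lit 0x830000b, nat_lit 0x284500015, nat_lit 0x20c500007, nat_lit 0x204500005, nat_lit 0x188500003, nat_lit 0x300002, nat_lit 0x104500001, nat_lit 0x80500000], [nat_lit 167, nat_lit 196, nat_lit 230, nat_lit 131, nat_lit 98, nat_lit 65, nat_lit 32]⟩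
noncomputable def n127 : Nd := ⟨nat_lit 12, [nat_lit 0, nat_lit 0, nat_lit 1048577, nat_lit 2097155, nat_lit 2097157, nat_lit 3145749, nat_lit 3145739, nat_lit 4194319, nat_lit 4194357, nat_lit 5243023, nat_lit 5242959, nat_lit 5243189], [nat_lit 0x931470009f, nat_lit 0x731470001f, nat_lit 0x28c500017, nat_lit 0x584500135, nat_lit 0xa39070004f, nat_lit 0x830004b, nat_lit 0x931070008f, nat_lit 0x404500035, nat_lit 0x731070000f, nat_lit 0x30850000b, nat_lit 0x284500015, nat_lit 0x20c500007, nat_lit 0x204500005, nat_lit 0x188500003, nat_lit 0x300002, nat_lit 0x104500001, nat_lit 0x80500000], [nat_lit 199, nat_lit 228, nat_lit 131, nat_lit 98, nat_lit 65, nat_lit 32]⟩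
noncomputable def n128 : Nd := ⟨nat_lit 12, [nat_lit 0, nat_lit 0, nat_lit 1048577, nat_lit 2097155, nat_lit 2097157, nat_lit 3145749, nat_lit 3145739, nat_lit 4194319, nat_lit 4194357, nat_lit 5243023, nat_lit 4194379, nat_lit 5243189], [nat_lit 0x931470009f, nat_lit 0x731470001f, nat_lit 0x28c500017, nat_lit 0xa39070004f, nat_lit 0x584500135, nat_lit 0x50850004b, nat_lit 0x931070008f, nat_lit 0x404500035, nat_lit 0x731070000f, nat_lit 0x30850000b, nat_lit 0x284500015, nat_lit 0x20c500007, nat_lit 0x204500005, nat_lit 0x188500003, nat_lit 0x300002, nat_lit 0x104500001, nat_lit 0x80500000], [nat_lit 199, nat_lit 228, nat_lit 131, nat_lit 98, nat_lit 65, nat_lit 32]⟩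
noncomputable def n129 : Nd := ⟨nat_lit 10, [nat_lit 0, nat_lit 0, nat_lit 1048577, nat_lit 2097155, nat_lit 2097157, nat_lit 3145735, nat_lit 4194319, nat_lit 4194343, nat_lit 3145749, nat_lit 4194581], [nat_lit 0x484500115, nat_lit 0x404500015, nat_lit 0x720c700027, nat_lit 0x629070000f, nat_lit 0x830000b, nat_lit 0x520c700007, nat_lit 0x204500005, nat_lit 0x188500003, nat_lit 0x300002, nat_lit 0x104500001, nat_lit 0x80500000], [nat_lit 196, nat_lit 166, nat_lit 164, nat_lit 163, nat_lit 131, nat_lit 98, nat_lit 65, nat_lit 32]⟩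
noncomputable def n130 : Nd := ⟨nat_lit 8, [nat_lit 0, nat_lit 0, nat_lit 1048577, nat_lit 2097155, nat_lit 2097157, nat_lit 3145735, nat_lit 3145739, nat_lit 3145749], [nat_lit 0x20c500027, nat_lit 0x629070000f, nat_lit 0x384500015, nat_lit 0x30850000b, nat_lit 0x520c700007, nat_lit 0x204500005, nat_lit 0x188500003, nat_lit 0x300002, nat_lit 0x104500001, nat_lit 0x80500000], [nat_lit 164, nat_lit 163, nat_lit 131, nat_lit 98, nat_lit 65, nat_lit 32]⟩
noncomputable def n131 : Nd := ⟨nat_lit 10, [nat_lit 0, nat_lit 0, nat_lit 1048577, nat_lit 2097155, nat_lit 2097157, nat_lit 3145735, nat_lit 3145739, nat_lit 3145749, nat_lit 4194343, nat_lit 4194453], [nat_lit 0x830004b, nat_lit 0x484500095, nat_lit 0x820c700027, nat_lit 0x629070000f, nat_lit 0x384500015, nat_lit 0x30850000b, nat_lit 0x520c700007, nat_lit 0x204500005, nat_lit 0x188500003, nat_lit 0x300002, nat_lit 0x104500001, nat_lit 0x80500000], [nat_lit 164, nat_lit 163, nat_lit 131, nat_lit 98, nat_lit 65, nat_lit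 32]⟩
noncomputable def n132 : Nd := ⟨nat_lit 10, [nat_lit 0, nat_lit 0, nat_lit 1048577, nat_lit 2097155, nat_lit 2097157, nat_lit 3145735, nat_lit 3145739, nat_lit 3145749, nat_lit 4194343, nat_lit 4194453], [nat_lit 0x830004b, nat_lit 0x484500095, nat_lit 0x820c700027, nat_lit 0x629070000f, nat_lit 0x384500015, nat_lit 0x30850000b, nat_lit 0x520c700007, nat_lit 0x204500005, nat_lit 0x188500003, nat_lit 0x300002, nat_lit 0x104500001, nat_lit 0x80500000], [nat_lit 133, nat_lit 163, nat_lit 131, nat_lit 98, nat_lit 65, nat_lit 32]⟩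
noncomputable def n133 : Nd := ⟨nat_lit 11, [nat_lit 0, nat_lit 0, nat_lit 1048577, nat_lit 1048577, nat_lit 3145735, nat_lit 3145735, nat_lit 3145739, nat_lit 4194327, nat_lit 4194343, nat_lit 4194379, nat_lit 6291615], [nat_lit 0x939470005f, nat_lit 0xa31470009f, nat_lit 0x28c500097, nat_lit 0x839870003f, nat_lit 0x838c700037, nat_lit 0x831070002f, nat_lit 0x20c500127, nat_lit 0x929070004f, nat_lit 0x731470001f, nat_lit 0x48850004b, nat_lit 0x820c700027, nat_lit 0x728c700017, nat_lit 0x629070000f, nat_lit 0x430000d, nat_lit 0x30850000b, nat_lit 0x520c700007, nat_lit 0x184500005, nat_lit 0x104500009, nat_lit 0x188500003, nat_lit 0x300002, nat_lit 0x3104700001, nat_lit 0x80500000], [nat_lit 229, nat_lit 199, nat_lit 197, nat_lit 131, nat_lit 164, nat_lit 65, nat_lit 98, nat_lit 32]⟩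
noncomputable def n134 : Nd := ⟨nat_lit 13, [nat_lit 0, nat_lit 0, nat_lit 1048577, nat_lit 1048577, nat_lit 3145735, nat_lit 3145735, nat_lit 3145739, nat_lit 4194327, nat_lit 4194343, nat_lit 4194379, nat_lit 5243175, nat_lit 5243467, nat_lit 6291615], [nat_lit 0xb29070024f, nat_lit 0x839870003f, nat_lit 0x838c700037, nat_lit 0x831070002f, nat_lit 0xc31470009f, nat_lit 0x28c500097, nat_lit 0x58850024b, nat_lit 0xa20c700127, nat_lit 0x929070004f, nat_lit 0x731470001f, nat_lit 0x48850004b, nat_lit 0x820c700027, nat_lit 0x728c700017, nat_lit 0x629070000f, nat_lit 0x430000d, nat_lit 0x30850000b, nat_lit 0x520c700007, nat_lit 0x184500005, nat_lit 0x104500009, nat_lit 0x188500003, nat_lit 0x300002, nat_lit 0x3104700001, nat_lit 0x80500000], [nat_lit 199, nat_lit 229, nat_lit 197, nat_lit 131, nat_lit 164, nat_lit 65, nat_lit 98, nat_lit 32]⟩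
noncomputable def n135 : Nd := ⟨nat_lit 6, [nat_lit 0, nat_lit 0, nat_lit 1048577, nat_lit 1048577, nat_lit 2097155, nat_lit 3145735], [nat_lit 0x430000d, nat_lit 0x104500009, nat_lit 0x520c700007, nat_lit 0x184500005, nat_lit 0x4188700003, nat_lit 0x300002, nat_lit 0x3104700001, nat_lit 0x80500000], [nat_lit 164, nat_lit 163, nat_lit 131, nat_lit 65, nat_lit 98, nat_lit 32]⟩
noncomputable def n136 : Nd := ⟨nat_lit 6, [nat_lit 0, nat_lit 0, nat_lit 1048577, nat_lit 1048577, nat_lit 2097155, nat_lit 3145735], [nat_lit 0x20c500027, nat_lit 0x28c500017, nat_lit 0x188500013, nat_lit 0x29050000f, nat_lit 0x20850000b, nat_lit 0x430000d, nat_lit 0x104500009, nat_lit 0x520c700007, nat_lit 0x184500005, nat_lit 0x4188700003, nat_lit 0x300002, nat_lit 0x3104700001, nat_lit 0x80500000], [nat_lit 133, nat_lit 163, nat_lit 131, nat_lit 65, nat_lit 98, nat_lit 32]⟩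
noncomputable def n137 : Nd := ⟨nat_lit 8, [nat_lit 0, nat_lit 0, nat_lit 1048577, nat_lit 1048577, nat_lit 2097155, nat_lit 3145735, nat_lit 4194343, nat_lit 5242927], [nat_lit 0x731070002f, nat_lit 0x620c700027, nat_lit 0x28c500017, nat_lit 0x188500013, nat_lit 0x29050000f, nat_lit 0x20850000b, nat_lit 0x430000d, nat_lit 0x104500009, nat_lit 0x520c700007, nat_lit 0x184500005, nat_lit 0x4188700003, nat_lit 0x300002, nat_lit 0x3104700001, nat_lit 0x80500000], [nat_lit 133, nat_lit 163, nat_lit 131, nat_lit 65, nat_lit 98, nat_lit 32]⟩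
noncomputable def n138 : Nd := ⟨nat_lit 7, [nat_lit 0, nat_lit 0, nat_lit 1048577, nat_lit 1048577, nat_lit 2097155, nat_lit 3145735, nat_lit 4194327], [nat_lit 0x628c700017, nat_lit 0x188500013, nat_lit 0x29050000f, nat_lit 0x20850000b, nat_lit 0x430000d, nat_lit 0x104500009, nat_lit 0x520c700007, nat_lit 0x184500005, nat_lit 0x4188700003, nat_lit 0x300002, nat_lit 0x3104700001, nat_lit 0x80500000], [nat_lit 133, nat_lit 163, nat_lit 131, nat_lit 65, nat_lit 98, nat_lit 32]⟩
noncomputable def n139 : Nd := ⟨nat_lit 7, [nat_lit 0, nat_lit 0, nat_lit 1048577, nat_lit 1048577, nat_lit 2097155, nat_lit 3145735, nat_lit 3145747], [nat_lit 0x6188700013, nat_lit 0x29050000f, nat_lit 0x20850000b, nat_lit 0x430000d, nat_lit 0x104500009, nat_lit 0x520c700007, nat_lit 0x184500005, nat_lit 0x4188700003, nat_lit 0x300002, nat_lit 0x3104700001, nat_lit 0x80500000], [nat_lit 133, nat_lit 163, nat_lit 131, nat_lit 65, nat_lit 98, nat_lit 32]⟩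
noncomputable def n140 : Nd := ⟨nat_lit 8, [nat_lit 0, nat_lit 0, nat_lit 1048577, nat_lit 1048577, nat_lit 2097155, nat_lit 3145735, nat_lit 4194319, nat_lit 5242927], [nat_lit 0x188500013, nat_lit 0x731070002f, nat_lit 0x20c500027, nat_lit 0x629070000f, nat_lit 0x20850000b, nat_lit 0x430000d, nat_lit 0x104500009, nat_lit 0x520c700007, nat_lit 0x184500005, nat_lit 0x4188700003, nat_lit 0x300002, nat_lit 0x3104700001, nat_lit 0x80500000], [nat_lit 228, nat_lit 133, nat_lit 163, nat_lit 131, nat_lit 65, nat_lit 98, nat_lit 32]⟩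
noncomputable def n141 : Nd := ⟨nat_lit 8, [nat_lit 0, nat_lit 0, nat_lit 1048577, nat_lit 1048577, nat_lit 2097155, nat_lit 3145735, nat_lit 4194319, nat_lit 4194343], [nat_lit 0x720c700027, nat_lit 0x629070000f, nat_lit 0x20850000b, nat_lit 0x430000d, nat_lit 0x104500009, nat_lit 0x520c700007, nat_lit 0x184500005, nat_lit 0x4188700003, nat_lit 0x300002, nat_lit 0x3104700001, nat_lit 0x80500000], [nat_lit 133, nat_lit 163, nat_lit 131, nat_lit 65, nat_lit 98, nat_lit 32]⟩
noncomputable def n142 : Nd := ⟨nat_lit 9, [nat_lit 0, nat_lit 0, nat_lit 1048577, nat_lit 1048577, nat_lit 2097155, nat_lit 3145735, nat_lit 3145739, nat_lit 4194343, nat_lit 4194327], [nat_lit 0x731070002f, nat_lit 0x828c700017, nat_lit 0x188500013, nat_lit 0x720c700027, nat_lit 0x629070000f, nat_lit 0x620870000b, nat_lit 0x430000d, nat_lit 0x104500009, nat_lit 0x520c700007, nat_lit 0x184500005, nat_lit 0x4188700003, nat_lit 0x300002, nat_lit 0x3104700001, nat_lit 0x80500000], [nat_lit 133, nat_lit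 163, nat_lit 131, nat_lit 65, nat_lit 98, nat_lit 32]⟩
noncomputable def n143 : Nd := ⟨nat_lit 9, [nat_lit 0, nat_lit 0, nat_lit 1048577, nat_lit 1048577, nat_lit 2097155, nat_lit 3145735, nat_lit 3145739, nat_lit 4194343, nat_lit 3145747], [nat_lit 0x828c700017, nat_lit 0x8188700013, nat_lit 0x720c700027, nat_lit 0x629070000f, nat_lit 0x620870000b, nat_lit 0x430000d, nat_lit 0x104500009, nat_lit 0x520c700007, nat_lit 0x184500005, nat_lit 0x4188700003, nat_lit 0x300002, nat_lit 0x3104700001, nat_lit 0x80500000], [nat_lit 133, nat_lit 163, nat_lit 131, nat_lit 65, nat_lit 98, nat_lit 32]⟩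
noncomputable def n144 : Nd := ⟨nat_lit 7, [nat_lit 0, nat_lit 0, nat_lit 1048577, nat_lit 1048577, nat_lit 2097155, nat_lit 3145735, nat_lit 3145741], [nat_lit 0x629070000f, nat_lit 0x20850000b, nat_lit 0x188500013, nat_lit 0x30450000d, nat_lit 0x104500009, nat_lit 0x520c700007, nat_lit 0x184500005, nat_lit 0x4188700003, nat_lit 0x300002, nat_lit 0x3104700001, nat_lit 0x80500000], [nat_lit 164, nat_lit 131, nat_lit 130, nat_lit 65, nat_lit 98, nat_lit 32]⟩
noncomputable def n145 : Nd := ⟨nat_lit 8, [nat_lit 0, nat_lit 0, nat_lit 1048577, nat_lit 1048577, nat_lit 2097155, nat_lit 3145735, nat_lit 3145741, nat_lit 5242927], [nat_lit 0x731070002f, nat_lit 0x20c500027, nat_lit 0x629070000f, nat_lit 0x20850000b, nat_lit 0x188500013, nat_lit 0x30450000d, nat_lit 0x104500009, nat_lit 0x520c700007, nat_lit 0x184500005, nat_lit 0x4188700003, nat_lit 0x300002, nat_lit 0x3104700001, nat_lit 0x80500000], [nat_lit 228, nat_lit 163, nat_lit 133, nat_lit 131, nat_lit 130, nat_lit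 65, nat_lit 98, nat_lit 32]⟩
noncomputable def n146 : Nd := ⟨nat_lit 8, [nat_lit 0, nat_lit 0, nat_lit 1048577, nat_lit 1048577, nat_lit 2097155, nat_lit 3145735, nat_lit 3145741, nat_lit 4194343], [nat_lit 0x720c700027, nat_lit 0x629070000f, nat_lit 0x20850000b, nat_lit 0x188500013, nat_lit 0x30450000d, nat_lit 0x104500009, nat_lit 0x520c700007, nat_lit 0x184500005, nat_lit 0x4188700003, nat_lit 0x300002, nat_lit 0x3104700001, nat_lit 0x80500000], [nat_lit 163, nat_lit 133, nat_lit 131, nat_lit 130, nat_lit 65, nat_lit 98, nat_lit 32]⟩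
noncomputable def n147 : Nd := ⟨nat_lit 10, [nat_lit 0, nat_lit 0, nat_lit 1048577, nat_lit 1048577, nat_lit 2097155, nat_lit 3145735, nat_lit 3145741, nat_lit 3145747, nat_lit 4194343, nat_lit 4194381], [nat_lit 0x48450004d, nat_lit 0x629070000f, nat_lit 0x820c700027, nat_lit 0x20850000b, nat_lit 0x7188700013, nat_lit 0x30450000d, nat_lit 0x104500009, nat_lit 0x520c700007, nat_lit 0x184500005, nat_lit 0x4188700003, nat_lit 0x300002, nat_lit 0x3104700001, nat_lit 0x80500000], [nat_lit 164, nat_lit 131, nat_lit 130, nat_lit 65, nat_lit 98, nat_lit 32]⟩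
noncomputable def n148 : Nd := ⟨nat_lit 9, [nat_lit 0, nat_lit 0, nat_lit 1048577, nat_lit 1048577, nat_lit 2097155, nat_lit 3145735, nat_lit 3145741, nat_lit 3145747, nat_lit 4194343], [nat_lit 0x831070002f, nat_lit 0x820c700027, nat_lit 0x629070000f, nat_lit 0x20850000b, nat_lit 0x7188700013, nat_lit 0x30450000d, nat_lit 0x104500009, nat_lit 0x520c700007, nat_lit 0x184500005, nat_lit 0x4188700003, nat_lit 0x300002, nat_lit 0x3104700001, nat_lit 0x80500000], [nat_lit 196, nat_lit 163, nat_lit 133, nat_lit 131, nat_lit 130, nat_lit 65, nat_lit 98, nat_lit 32]⟩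
noncomputable def n149 : Nd := ⟨nat_lit 9, [nat_lit 0, nat_lit 0, nat_lit 1048577, nat_lit 1048577, nat_lit 2097155, nat_lit 3145735, nat_lit 3145741, nat_lit 3145747, nat_lit 4194343], [nat_lit 0x831070002f, nat_lit 0x820c700027, nat_lit 0x629070000f, nat_lit 0x20850000b, nat_lit 0x7188700013, nat_lit 0x30450000d, nat_lit 0x104500009, nat_lit 0x520c700007, nat_lit 0x184500005, nat_lit 0x4188700003, nat_lit 0x300002, nat_lit 0x3104700001, nat_lit 0x80500000], [nat_lit 134, nat_lit 163, nat_lit 133, nat_lit 131, nat_lit 130, nat_lit 65, nat_lit 98, nat_lit 32]⟩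
noncomputable def n150 : Nd := ⟨nat_lit 8, [nat_lit 0, nat_lit 0, nat_lit 1048577, nat_lit 1048577, nat_lit 2097155, nat_lit 2097157, nat_lit 3145747, nat_lit 4194319], [nat_lit 0x729070000f, nat_lit 0x28450000d, nat_lit 0x628c700017, nat_lit 0x20850000b, nat_lit 0x520c700007, nat_lit 0x6188700013, nat_lit 0x104500009, nat_lit 0x5184700005, nat_lit 0x4188700003, nat_lit 0x300002, nat_lit 0x3104700001, nat_lit 0x80500000], [nat_lit 101, nat_lit 100, nat_lit 164, nat_lit 130, nat_lit 65, nat_lit 98, nat_lit 32]⟩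
noncomputable def n151 : Nd := ⟨nat_lit 8, [nat_lit 0, nat_lit 0, nat_lit 1048577, nat_lit 1048577, nat_lit 2097155, nat_lit 2097157, nat_lit 3145747, nat_lit 3145741], [nat_lit 0x728470000d, nat_lit 0x628c700017, nat_lit 0x20850000b, nat_lit 0x520c700007, nat_lit 0x6188700013, nat_lit 0x104500009, nat_lit 0x5184700005, nat_lit 0x4188700003, nat_lit 0x300002, nat_lit 0x3104700001, nat_lit 0x80500000], [nat_lit 197, nat_lit 101, nat_lit 100, nat_lit 164, nat_lit 130, nat_lit 65, nat_lit 98, nat_lit 32]⟩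
noncomputable def n152 : Nd := ⟨nat_lit 6, [nat_lit 0, nat_lit 0, nat_lit 1048577, nat_lit 1048577, nat_lit 1048578, nat_lit 3145735], [nat_lit 0x20c500027, nat_lit 0x29050000f, nat_lit 0x20850000b, nat_lit 0x430000d, nat_lit 0x104500009, nat_lit 0x520c700007, nat_lit 0x184500005, nat_lit 0x4188700003, nat_lit 0x200500002, nat_lit 0x3104700001, nat_lit 0x80500000], [nat_lit 133, nat_lit 163, nat_lit 65, nat_lit 98, nat_lit 32]⟩
noncomputable def n153 : Nd := ⟨nat_lit 8, [nat_lit 0, nat_lit 0, nat_lit 1048577, nat_lit 1048577, nat_lit 1048578, nat_lit 3145735, nat_lit 4194343, nat_lit 5242927], [nat_lit 0x731070002f, nat_lit 0x620c700027, nat_lit 0x29050000f, nat_lit 0x20850000b, nat_lit 0x430000d, nat_lit 0x104500009, nat_lit 0x520c700007, nat_lit 0x184500005, nat_lit 0x4188700003, nat_lit 0x200500002, nat_lit 0x3104700001, nat_lit 0x80500000], [nat_lit 133, nat_lit 163, nat_lit 65, nat_lit 98, nat_lit 32]⟩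
noncomputable def n154 : Nd := ⟨nat_lit 8, [nat_lit 0, nat_lit 0, nat_lit 1048577, nat_lit 1048577, nat_lit 1048578, nat_lit 3145735, nat_lit 4194319, nat_lit 4194343], [nat_lit 0x720c700027, nat_lit 0x629070000f, nat_lit 0x20850000b, nat_lit 0x430000d, nat_lit 0x104500009, nat_lit 0x520c700007, nat_lit 0x184500005, nat_lit 0x4188700003, nat_lit 0x200500002, nat_lit 0x3104700001, nat_lit 0x80500000], [nat_lit 133, nat_lit 163, nat_lit 65, nat_lit 98, nat_lit 32]⟩
noncomputable def n155 : Nd := ⟨nat_lit 8, [nat_lit 0, nat_lit 0, nat_lit 1048577, nat_lit 1048577, nat_lit 1048578, nat_lit 3145735, nat_lit 3145741, nat_lit 4194343], [nat_lit 0x731070002f, nat_lit 0x28c500017, nat_lit 0x188500013, nat_lit 0x300012, nat_lit 0x720c700027, nat_lit 0x629070000f, nat_lit 0x20850000b, nat_lit 0x30450000d, nat_lit 0x104500009, nat_lit 0x520c700007, nat_lit 0x184500005, nat_lit 0x4188700003, nat_lit 0x200500002, nat_lit 0x3104700001, nat_lit 0x80500000], [nat_lit 199, nat_lit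 133, nat_lit 131, nat_lit 163, nat_lit 65, nat_lit 98, nat_lit 32]⟩
noncomputable def n156 : Nd := ⟨nat_lit 9, [nat_lit 0, nat_lit 0, nat_lit 1048577, nat_lit 1048577, nat_lit 1048578, nat_lit 3145735, nat_lit 3145741, nat_lit 4194343, nat_lit 4194327], [nat_lit 0x731070002f, nat_lit 0x828c700017, nat_lit 0x188500013, nat_lit 0x300012, nat_lit 0x720c700027, nat_lit 0x629070000f, nat_lit 0x20850000b, nat_lit 0x30450000d, nat_lit 0x104500009, nat_lit 0x520c700007, nat_lit 0x184500005, nat_lit 0x4188700003, nat_lit 0x200500002, nat_lit 0x3104700001, nat_lit 0x80500000], [nat_lit 196, nat_lit 133, nat_lit 131, nat_lit 163, nat_lit 65, nat_lit 98, nat_lit 32]⟩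
noncomputable def n157 : Nd := ⟨nat_lit 9, [nat_lit 0, nat_lit 0, nat_lit 1048577, nat_lit 1048577, nat_lit 1048578, nat_lit 3145735, nat_lit 3145741, nat_lit 4194343, nat_lit 3145747], [nat_lit 0x8188700013, nat_lit 0x300012, nat_lit 0x720c700027, nat_lit 0x629070000f, nat_lit 0x20850000b, nat_lit 0x30450000d, nat_lit 0x104500009, nat_lit 0x520c700007, nat_lit 0x184500005, nat_lit 0x4188700003, nat_lit 0x200500002, nat_lit 0x3104700001, nat_lit 0x80500000], [nat_lit 196, nat_lit 133, nat_lit 131, nat_lit 163, nat_lit 65, nat_lit 98, nat_lit 32]⟩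
noncomputable def n158 : Nd := ⟨nat_lit 9, [nat_lit 0, nat_lit 0, nat_lit 1048577, nat_lit 1048577, nat_lit 1048578, nat_lit 3145735, nat_lit 3145741, nat_lit 4194343, nat_lit 3145747], [nat_lit 0x731070002f, nat_lit 0x8188700013, nat_lit 0x300012, nat_lit 0x720c700027, nat_lit 0x629070000f, nat_lit 0x20850000b, nat_lit 0x30450000d, nat_lit 0x104500009, nat_lit 0x520c700007, nat_lit 0x184500005, nat_lit 0x4188700003, nat_lit 0x200500002, nat_lit 0x3104700001, nat_lit 0x80500000], [nat_lit 197, nat_lit 134, nat_lit 133, nat_lit 131, nat_lit 163, nat_lit 65, nat_lit 98, nat_lit 32]⟩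
noncomputable def n159 : Nd := ⟨nat_lit 9, [nat_lit 0, nat_lit 0, nat_lit 1048577, nat_lit 1048577, nat_lit 1048578, nat_lit 3145735, nat_lit 3145741, nat_lit 4194343, nat_lit 2097170], [nat_lit 0x29050004f, nat_lit 0x430004d, nat_lit 0x400500012, nat_lit 0x720c700027, nat_lit 0x629070000f, nat_lit 0x20850000b, nat_lit 0x30450000d, nat_lit 0x104500009, nat_lit 0x520c700007, nat_lit 0x184500005, nat_lit 0x4188700003, nat_lit 0x200500002, nat_lit 0x3104700001, nat_lit 0x80500000], [nat_lit 197, nat_lit 133, nat_lit 131, nat_lit 163, nat_lit 65, nat_lit 98, nat_lit 32]⟩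
noncomputable def n160 : Nd := ⟨nat_lit 10, [nat_lit 0, nat_lit 0, nat_lit 1048577, nat_lit 1048577, nat_lit 1048578, nat_lit 3145735, nat_lit 3145741, nat_lit 4194343, nat_lit 2097170, nat_lit 5242959], [nat_lit 0x731070002f, nat_lit 0x929070004f, nat_lit 0x430004d, nat_lit 0x400500012, nat_lit 0x720c700027, nat_lit 0x629070000f, nat_lit 0x20850000b, nat_lit 0x30450000d, nat_lit 0x104500009, nat_lit 0x520c700007, nat_lit 0x184500005, nat_lit 0x4188700003, nat_lit 0x200500002, nat_lit 0x3104700001, nat_lit 0x80500000], [nat_lit 197, nat_lit 133, nat_lit 131, nat_lit 163, nat_lit 65, nat_lit 98, nat_lit 32]⟩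
noncomputable def n161 : Nd := ⟨nat_lit 10, [nat_lit 0, nat_lit 0, nat_lit 1048577, nat_lit 1048577, nat_lit 1048578, nat_lit 3145735, nat_lit 3145741, nat_lit 4194343, nat_lit 2097170, nat_lit 4194381], [nat_lit 0x731070002f, nat_lit 0x48450004d, nat_lit 0x400500012, nat_lit 0x720c700027, nat_lit 0x629070000f, nat_lit 0x20850000b, nat_lit 0x30450000d, nat_lit 0x104500009, nat_lit 0x520c700007, nat_lit 0x184500005, nat_lit 0x4188700003, nat_lit 0x200500002, nat_lit 0x3104700001, nat_lit 0x80500000], [nat_lit 197, nat_lit 133, nat_lit 131, nat_lit 163, nat_lit 65, nat_lit 98, nat_lit 32]⟩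
noncomputable def n162 : Nd := ⟨nat_lit 9, [nat_lit 0, nat_lit 0, nat_lit 1048577, nat_lit 1048577, nat_lit 1048578, nat_lit 3145735, nat_lit 2097161, nat_lit 4194343, nat_lit 3145747], [nat_lit 0x104500049, nat_lit 0x828c700017, nat_lit 0x8188700013, nat_lit 0x300012, nat_lit 0x629070000f, nat_lit 0x30450000d, nat_lit 0x620870000b, nat_lit 0x720c700027, nat_lit 0x6104700009, nat_lit 0x520c700007, nat_lit 0x184500005, nat_lit 0x4188700003, nat_lit 0x200500002, nat_lit 0x3104700001, nat_lit 0x80500000], [nat_lit 133, nat_lit 131, nat_lit 163, nat_lit 65, nat_lit 98, nat_lit 32]⟩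
noncomputable def n163 : Nd := ⟨nat_lit 10, [nat_lit 0, nat_lit 0, nat_lit 1048577, nat_lit 1048577, nat_lit 1048578, nat_lit 3145735, nat_lit 2097161, nat_lit 4194343, nat_lit 2097170, nat_lit 4194381], [nat_lit 0x731070002f, nat_lit 0x48450004d, nat_lit 0x104500049, nat_lit 0x828c700017, nat_lit 0x8188700013, nat_lit 0x400500012, nat_lit 0x629070000f, nat_lit 0x30450000d, nat_lit 0x620870000b, nat_lit 0x720c700027, nat_lit 0x6104700009, nat_lit 0x520c700007, nat_lit 0x184500005, nat_lit 0x4188700003, nat_lit 0x200500002, nat_lit 0x3104700001, nat_lit 0x80500000], [nat_lit 133, nat_lit 131, nat_lit 163, nat_lit 65, nat_lit 98, nat_lit 32]⟩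
noncomputable def n164 : Nd := ⟨nat_lit 6, [nat_lit 0, nat_lit 0, nat_lit 1048577, nat_lit 1048577, nat_lit 1048578, nat_lit 2097157], [nat_lit 0x104500009, nat_lit 0x188500013, nat_lit 0x300012, nat_lit 0x520c700007, nat_lit 0x5184700005, nat_lit 0x4188700003, nat_lit 0x200500002, nat_lit 0x3104700001, nat_lit 0x80500000], [nat_lit 164, nat_lit 131, nat_lit 130, nat_lit 65, nat_lit 98, nat_lit 32]⟩
noncomputable def n165 : Nd := ⟨nat_lit 7, [nat_lit 0, nat_lit 0, nat_lit 1048577, nat_lit 1048577, nat_lit 1048578, nat_lit 2097157, nat_lit 3145747], [nat_lit 0x104500009, nat_lit 0x6188700013, nat_lit 0x300012, nat_lit 0x520c700007, nat_lit 0x5184700005, nat_lit 0x4188700003, nat_lit 0x200500002, nat_lit 0x3104700001, nat_lit 0x80500000], [nat_lit 164, nat_lit 131, nat_lit 130, nat_lit 65, nat_lit 98, nat_lit 32]⟩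
noncomputable def n166 : Nd := ⟨nat_lit 7, [nat_lit 0, nat_lit 0, nat_lit 1048577, nat_lit 1048577, nat_lit 1048578, nat_lit 2097157, nat_lit 3145747], [nat_lit 0x104500009, nat_lit 0x6188700013, nat_lit 0x300012, nat_lit 0x520c700007, nat_lit 0x5184700005, nat_lit 0x4188700003, nat_lit 0x200500002, nat_lit 0x3104700001, nat_lit 0x80500000], [nat_lit 163, nat_lit 133, nat_lit 131, nat_lit 130, nat_lit 65, nat_lit 98, nat_lit 32]⟩
noncomputable def n167 : Nd := ⟨nat_lit 13, [nat_lit 0, nat_lit 0, nat_lit 1048577, nat_lit 2097155, nat_lit 2097157, nat_lit 3145749, nat_lit 3145739, nat_lit 4194319, nat_lit 4194357, nat_lit 5243023, nat_lit 4194379, nat_lit 5243189, nat_lit 6293813], [nat_lit 0x604500935, nat_lit 0x931470009f, nat_lit 0x731470001f, nat_lit 0x28c500017, nat_lit 0xa39070004f, nat_lit 0x584500135, nat_lit 0x50850004b, nat_lit 0x931070008f, nat_lit 0x404500035, nat_lit 0x731070000f, nat_lit 0x30850000b, nat_lit 0x284500015, nat_lit 0x20c500007, nat_lit 0x204500005,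 nat_lit 0x188500003, nat_lit 0x300002, nat_lit 0x104500001, nat_lit 0x80500000], [nat_lit 294, nat_lit 169, nat_lit 199, nat_lit 228, nat_lit 131, nat_lit 98, nat_lit 65, nat_lit 32]⟩
noncomputable def n168 : Nd := ⟨nat_lit 9, [nat_lit 0, nat_lit 0, nat_lit 1048577, nat_lit 1048577, nat_lit 2097155, nat_lit 3145735, nat_lit 4194319, nat_lit 4194343, nat_lit 4194327], [nat_lit 0x828c700017, nat_lit 0x188500013, nat_lit 0x720c700027, nat_lit 0x629070000f, nat_lit 0x20850000b, nat_lit 0x430000d, nat_lit 0x104500009, nat_lit 0x520c700007, nat_lit 0x184500005, nat_lit 0x4188700003, nat_lit 0x300002, nat_lit 0x3104700001, nat_lit 0x80500000], [nat_lit 164, nat_lit 163, nat_lit 131, nat_lit 65, nat_lit 98, nat_lit 32]⟩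
noncomputable def n169 : Nd := ⟨nat_lit 8, [nat_lit 0, nat_lit 0, nat_lit 1048577, nat_lit 1048577, nat_lit 2097155, nat_lit 3145735, nat_lit 4194343, nat_lit 5242927], [nat_lit 0x1430001f, nat_lit 0x830001b, nat_lit 0x731070002f, nat_lit 0x620c700027, nat_lit 0x28c500017, nat_lit 0x188500013, nat_lit 0x29050000f, nat_lit 0x20850000b, nat_lit 0x430000d, nat_lit 0x104500009, nat_lit 0x520c700007, nat_lit 0x184500005, nat_lit 0x4188700003, nat_lit 0x300002, nat_lit 0x3104700001, nat_lit 0x80500000], [nat_lit 228, nat_lit 133, nat_lit 163, nat_lit 131, nat_lit 65, nat_lit 98, nat_lit 32]⟩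
noncomputable def n170 : Nd := ⟨nat_lit 9, [nat_lit 0, nat_lit 0, nat_lit 1048577, nat_lit 1048577, nat_lit 2097155, nat_lit 3145735, nat_lit 3145747, nat_lit 4194343, nat_lit 5242927], [nat_lit 0x628c700017, nat_lit 0x839070002f, nat_lit 0x720c700027, nat_lit 0x6188700013, nat_lit 0x29050000f, nat_lit 0x20850000b, nat_lit 0x430000d, nat_lit 0x104500009, nat_lit 0x520c700007, nat_lit 0x184500005, nat_lit 0x4188700003, nat_lit 0x300002, nat_lit 0x3104700001, nat_lit 0x80500000], [nat_lit 260, nat_lit 133, nat_lit 163, nat_lit 131, nat_lit 65, nat_lit 98, nat_lit 32]⟩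
noncomputable def n171 : Nd := ⟨nat_lit 8, [nat_lit 0, nat_lit 0, nat_lit 1048577, nat_lit 1048577, nat_lit 2097155, nat_lit 3145735, nat_lit 4194319, nat_lit 4194343], [nat_lit 0x731070002f, nat_lit 0x28c500017, nat_lit 0x188500013, nat_lit 0x720c700027, nat_lit 0x629070000f, nat_lit 0x20850000b, nat_lit 0x430000d, nat_lit 0x104500009, nat_lit 0x520c700007, nat_lit 0x184500005, nat_lit 0x4188700003, nat_lit 0x300002, nat_lit 0x3104700001, nat_lit 0x80500000], [nat_lit 230, nat_lit 196, nat_lit 197, nat_lit 133, nat_lit 163, nat_lit 131, nat_lit 65, nat_lit 98, nat_lit 32]⟩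
noncomputable def n172 : Nd := ⟨nat_lit 8, [nat_lit 0, nat_lit 0, nat_lit 1048577, nat_lit 1048577, nat_lit 2097155, nat_lit 3145735, nat_lit 4194319, nat_lit 4194343], [nat_lit 0x731070002f, nat_lit 0x28c500017, nat_lit 0x188500013, nat_lit 0x720c700027, nat_lit 0x629070000f, nat_lit 0x20850000b, nat_lit 0x430000d, nat_lit 0x104500009, nat_lit 0x520c700007, nat_lit 0x184500005, nat_lit 0x4188700003, nat_lit 0x300002, nat_lit 0x3104700001, nat_lit 0x80500000], [nat_lit 228, nat_lit 199, nat_lit 196, nat_lit 197, nat_lit 133, nat_lit 163, nat_lit 131, nat_lit 65, nat_lit 98, nat_lit 32]⟩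
noncomputable def n173 : Nd := ⟨nat_lit 8, [nat_lit 0, nat_lit 0, nat_lit 1048577, nat_lit 1048577, nat_lit 2097155, nat_lit 3145735, nat_lit 4194319, nat_lit 4194343], [nat_lit 0x731070002f, nat_lit 0x28c500017, nat_lit 0x188500013, nat_lit 0x720c700027, nat_lit 0x629070000f, nat_lit 0x20850000b, nat_lit 0x430000d, nat_lit 0x104500009, nat_lit 0x520c700007, nat_lit 0x184500005, nat_lit 0x4188700003, nat_lit 0x300002, nat_lit 0x3104700001, nat_lit 0x80500000], [nat_lit 134, nat_lit 197, nat_lit 133, nat_lit 163, nat_lit 131, nat_lit 65, nat_lit 98, nat_lit 32]⟩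
noncomputable def n174 : Nd := ⟨nat_lit 9, [nat_lit 0, nat_lit 0, nat_lit 1048577, nat_lit 1048577, nat_lit 2097155, nat_lit 3145735, nat_lit 4194319, nat_lit 4194343, nat_lit 4194327], [nat_lit 0x731070002f, nat_lit 0x828c700017, nat_lit 0x188500013, nat_lit 0x720c700027, nat_lit 0x629070000f, nat_lit 0x20850000b, nat_lit 0x430000d, nat_lit 0x104500009, nat_lit 0x520c700007, nat_lit 0x184500005, nat_lit 0x4188700003, nat_lit 0x300002, nat_lit 0x3104700001, nat_lit 0x80500000], [nat_lit 133, nat_lit 163, nat_lit 131, nat_lit 65, nat_lit 98, nat_lit 32]⟩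
noncomputable def n175 : Nd := ⟨nat_lit 9, [nat_lit 0, nat_lit 0, nat_lit 1048577, nat_lit 1048577, nat_lit 2097155, nat_lit 3145735, nat_lit 4194319, nat_lit 4194343, nat_lit 3145747], [nat_lit 0x731070002f, nat_lit 0x8188700013, nat_lit 0x720c700027, nat_lit 0x629070000f, nat_lit 0x20850000b, nat_lit 0x430000d, nat_lit 0x104500009, nat_lit 0x520c700007, nat_lit 0x184500005, nat_lit 0x4188700003, nat_lit 0x300002, nat_lit 0x3104700001, nat_lit 0x80500000], [nat_lit 230, nat_lit 197, nat_lit 133, nat_lit 163, nat_lit 131, nat_lit 65, nat_lit 98, nat_lit 32]⟩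
noncomputable def n176 : Nd := ⟨nat_lit 9, [nat_lit 0, nat_lit 0, nat_lit 1048577, nat_lit 1048577, nat_lit 2097155, nat_lit 3145735, nat_lit 4194319, nat_lit 4194343, nat_lit 3145747], [nat_lit 0x731070002f, nat_lit 0x8188700013, nat_lit 0x720c700027, nat_lit 0x629070000f, nat_lit 0x20850000b, nat_lit 0x430000d, nat_lit 0x104500009, nat_lit 0x520c700007, nat_lit 0x184500005, nat_lit 0x4188700003, nat_lit 0x300002, nat_lit 0x3104700001, nat_lit 0x80500000], [nat_lit 228, nat_lit 199, nat_lit 197, nat_lit 133, nat_lit 163, nat_lit 131, nat_lit 65, nat_lit 98, nat_lit 32]⟩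
noncomputable def n177 : Nd := ⟨nat_lit 9, [nat_lit 0, nat_lit 0, nat_lit 1048577, nat_lit 1048577, nat_lit 2097155, nat_lit 3145735, nat_lit 4194319, nat_lit 4194343, nat_lit 3145747], [nat_lit 0x828c700017, nat_lit 0x29050004f, nat_lit 0x731070002f, nat_lit 0x8188700013, nat_lit 0x720c700027, nat_lit 0x629070000f, nat_lit 0x20850000b, nat_lit 0x430000d, nat_lit 0x104500009, nat_lit 0x520c700007, nat_lit 0x184500005, nat_lit 0x4188700003, nat_lit 0x300002, nat_lit 0x3104700001, nat_lit 0x80500000], [nat_lit 135, nat_lit 199, nat_lit 197, nat_lit 133, nat_lit 163, nat_lit 131, nat_lit 65, nat_lit 98, nat_lit 32]⟩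
noncomputable def n178 : Nd := ⟨nat_lit 9, [nat_lit 0, nat_lit 0, nat_lit 1048577, nat_lit 1048577, nat_lit 2097155, nat_lit 3145735, nat_lit 3145739, nat_lit 4194343, nat_lit 3145747], [nat_lit 0x731070002f, nat_lit 0x828c700017, nat_lit 0x8188700013, nat_lit 0x720c700027, nat_lit 0x629070000f, nat_lit 0x620870000b, nat_lit 0x430000d, nat_lit 0x104500009, nat_lit 0x520c700007, nat_lit 0x184500005, nat_lit 0x4188700003, nat_lit 0x300002, nat_lit 0x3104700001, nat_lit 0x80500000], [nat_lit 228, nat_lit 133, nat_lit 163, nat_lit 131, nat_lit 65, nat_lit 98, nat_lit 32]⟩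
noncomputable def n179 : Nd := ⟨nat_lit 9, [nat_lit 0, nat_lit 0, nat_lit 1048577, nat_lit 1048577, nat_lit 2097155, nat_lit 3145735, nat_lit 3145741, nat_lit 4194343, nat_lit 4194327], [nat_lit 0x830001b, nat_lit 0x828c700017, nat_lit 0x720c700027, nat_lit 0x629070000f, nat_lit 0x20850000b, nat_lit 0x188500013, nat_lit 0x30450000d, nat_lit 0x104500009, nat_lit 0x520c700007, nat_lit 0x184500005, nat_lit 0x4188700003, nat_lit 0x300002, nat_lit 0x3104700001, nat_lit 0x80500000], [nat_lit 197, nat_lit 164, nat_lit 131, nat_lit 130, nat_lit 65, nat_lit 98, nat_lit 32]⟩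
noncomputable def n180 : Nd := ⟨nat_lit 8, [nat_lit 0, nat_lit 0, nat_lit 1048577, nat_lit 1048577, nat_lit 2097155, nat_lit 3145735, nat_lit 3145741, nat_lit 4194343], [nat_lit 0x31450001f, nat_lit 0x830001b, nat_lit 0x731070002f, nat_lit 0x28c500017, nat_lit 0x720c700027, nat_lit 0x629070000f, nat_lit 0x20850000b, nat_lit 0x188500013, nat_lit 0x30450000d, nat_lit 0x104500009, nat_lit 0x520c700007, nat_lit 0x184500005, nat_lit 0x4188700003, nat_lit 0x300002, nat_lit 0x3104700001, nat_lit 0x80500000], [nat_lit 196, nat_lit 228, nat_lit 163, nat_lit 133, nat_lit 131, nat_lit 130, nat_lit 65, nat_lit 98, nat_lit 32]⟩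
noncomputable def n181 : Nd := ⟨nat_lit 9, [nat_lit 0, nat_lit 0, nat_lit 1048577, nat_lit 1048577, nat_lit 2097155, nat_lit 3145735, nat_lit 3145741, nat_lit 3145747, nat_lit 4194343], [nat_lit 0x430004d, nat_lit 0x831070002f, nat_lit 0x820c700027, nat_lit 0x629070000f, nat_lit 0x20850000b, nat_lit 0x7188700013, nat_lit 0x30450000d, nat_lit 0x104500009, nat_lit 0x520c700007, nat_lit 0x184500005, nat_lit 0x4188700003, nat_lit 0x300002, nat_lit 0x3104700001, nat_lit 0x80500000], [nat_lit 260, nat_lit 200, nat_lit 196, nat_lit 163, nat_lit 133, nat_lit 131, nat_lit 130, nat_lit 65, nat_lit 98, nat_lit 32]⟩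
noncomputable def n182 : Nd := ⟨nat_lit 9, [nat_lit 0, nat_lit 0, nat_lit 1048577, nat_lit 1048577, nat_lit 2097155, nat_lit 3145735, nat_lit 3145741, nat_lit 3145747, nat_lit 4194343], [nat_lit 0x831070002f, nat_lit 0x820c700027, nat_lit 0x629070000f, nat_lit 0x20850000b, nat_lit 0x7188700013, nat_lit 0x30450000d, nat_lit 0x104500009, nat_lit 0x520c700007, nat_lit 0x184500005, nat_lit 0x4188700003, nat_lit 0x300002, nat_lit 0x3104700001, nat_lit 0x80500000], [nat_lit 136, nat_lit 200, nat_lit 196, nat_lit 163, nat_lit 133, nat_lit 131, nat_lit 130, nat_lit 65, nat_lit 98, nat_lit 32]⟩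
noncomputable def n183 : Nd := ⟨nat_lit 8, [nat_lit 0, nat_lit 0, nat_lit 1048577, nat_lit 1048577, nat_lit 1048578, nat_lit 3145735, nat_lit 4194343, nat_lit 5242927], [nat_lit 0x188500013, nat_lit 0x300012, nat_lit 0x731070002f, nat_lit 0x620c700027, nat_lit 0x29050000f, nat_lit 0x20850000b, nat_lit 0x430000d, nat_lit 0x104500009, nat_lit 0x520c700007, nat_lit 0x184500005, nat_lit 0x4188700003, nat_lit 0x200500002, nat_lit 0x3104700001, nat_lit 0x80500000], [nat_lit 228, nat_lit 133, nat_lit 163, nat_lit 65, nat_lit 98, nat_lit 32]⟩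
noncomputable def n184 : Nd := ⟨nat_lit 8, [nat_lit 0, nat_lit 0, nat_lit 1048577, nat_lit 1048577, nat_lit 1048578, nat_lit 3145735, nat_lit 4194319, nat_lit 4194343], [nat_lit 0x731070002f, nat_lit 0x720c700027, nat_lit 0x629070000f, nat_lit 0x20850000b, nat_lit 0x430000d, nat_lit 0x104500009, nat_lit 0x520c700007, nat_lit 0x184500005, nat_lit 0x4188700003, nat_lit 0x200500002, nat_lit 0x3104700001, nat_lit 0x80500000], [nat_lit 196, nat_lit 230, nat_lit 197, nat_lit 133, nat_lit 163, nat_lit 65, nat_lit 98, nat_lit 32]⟩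
noncomputable def n185 : Nd := ⟨nat_lit 8, [nat_lit 0, nat_lit 0, nat_lit 1048577, nat_lit 1048577, nat_lit 1048578, nat_lit 3145735, nat_lit 4194319, nat_lit 4194343], [nat_lit 0x29050004f, nat_lit 0x731070002f, nat_lit 0x720c700027, nat_lit 0x629070000f, nat_lit 0x20850000b, nat_lit 0x430000d, nat_lit 0x104500009, nat_lit 0x520c700007, nat_lit 0x184500005, nat_lit 0x4188700003, nat_lit 0x200500002, nat_lit 0x3104700001, nat_lit 0x80500000], [nat_lit 134, nat_lit 230, nat_lit 197, nat_lit 133, nat_lit 163, nat_lit 65, nat_lit 98, nat_lit 32]⟩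
noncomputable def n186 : Nd := ⟨nat_lit 8, [nat_lit 0, nat_lit 0, nat_lit 1048577, nat_lit 1048577, nat_lit 1048578, nat_lit 3145735, nat_lit 4194319, nat_lit 4194343], [nat_lit 0x731070002f, nat_lit 0x720c700027, nat_lit 0x629070000f, nat_lit 0x20850000b, nat_lit 0x430000d, nat_lit 0x104500009, nat_lit 0x520c700007, nat_lit 0x184500005, nat_lit 0x4188700003, nat_lit 0x200500002, nat_lit 0x3104700001, nat_lit 0x80500000], [nat_lit 199, nat_lit 197, nat_lit 133, nat_lit 163, nat_lit 65, nat_lit 98, nat_lit 32]⟩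
noncomputable def n187 : Nd := ⟨nat_lit 9, [nat_lit 0, nat_lit 0, nat_lit 1048577, nat_lit 1048577, nat_lit 1048578, nat_lit 3145735, nat_lit 3145741, nat_lit 4194343, nat_lit 3145747], [nat_lit 0x731070002f, nat_lit 0x29050004f, nat_lit 0x430004d, nat_lit 0x8188700013, nat_lit 0x300012, nat_lit 0x720c700027, nat_lit 0x629070000f, nat_lit 0x20850000b, nat_lit 0x30450000d, nat_lit 0x104500009, nat_lit 0x520c700007, nat_lit 0x184500005, nat_lit 0x4188700003, nat_lit 0x200500002, nat_lit 0x3104700001, nat_lit 0x80500000], [nat_lit 196, nat_lit 133, nat_lit 131, nat_lit 163, nat_lit 65, nat_lit 98, nat_lit 32]⟩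
noncomputable def n188 : Nd := ⟨nat_lit 9, [nat_lit 0, nat_lit 0, nat_lit 1048577, nat_lit 1048577, nat_lit 2097155, nat_lit 3145735, nat_lit 4194319, nat_lit 4194343, nat_lit 4194327], [nat_lit 0x731070002f, nat_lit 0x828c700017, nat_lit 0x188500013, nat_lit 0x720c700027, nat_lit 0x629070000f, nat_lit 0x20850000b, nat_lit 0x430000d, nat_lit 0x104500009, nat_lit 0x520c700007, nat_lit 0x184500005, nat_lit 0x4188700003, nat_lit 0x300002, nat_lit 0x3104700001, nat_lit 0x80500000], [nat_lit 199, nat_lit 197, nat_lit 133, nat_lit 163, nat_lit 131, nat_lit 65, nat_lit 98, nat_lit 32]⟩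
noncomputable def n189 : Nd := ⟨nat_lit 11, [nat_lit 0, nat_lit 0, nat_lit 1048577, nat_lit 1048577, nat_lit 2097155, nat_lit 3145735, nat_lit 3145741, nat_lit 4194343, nat_lit 4194327, nat_lit 4194381, nat_lit 5243047], [nat_lit 0xa20c7000a7, nat_lit 0x929070004f, nat_lit 0x831470001f, nat_lit 0x48450004d, nat_lit 0x830001b, nat_lit 0x828c700017, nat_lit 0x720c700027, nat_lit 0x629070000f, nat_lit 0x20850000b, nat_lit 0x188500013, nat_lit 0x30450000d, nat_lit 0x104500009, nat_lit 0x520c700007, nat_lit 0x184500005, nat_lit 0x4188700003, nat_lit 0x300002, nat_lit 0x3104700001, nat_lit 0x80500000], [nat_lit 197, nat_lit 164, nat_lit 131, nat_lit 130, nat_lit 65, nat_lit 98, nat_lit 32]⟩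
noncomputable def n190 : Nd := ⟨nat_lit 9, [nat_lit 0, nat_lit 0, nat_lit 1048577, nat_lit 1048577, nat_lit 1048578, nat_lit 3145735, nat_lit 4194319, nat_lit 4194343, nat_lit 5242959], [nat_lit 0x829070004f, nat_lit 0x731070002f, nat_lit 0x720c700027, nat_lit 0x629070000f, nat_lit 0x20850000b, nat_lit 0x430000d, nat_lit 0x104500009, nat_lit 0x520c700007, nat_lit 0x184500005, nat_lit 0x4188700003, nat_lit 0x200500002, nat_lit 0x3104700001, nat_lit 0x80500000], [nat_lit 228, nat_lit 199, nat_lit 197, nat_lit 133, nat_lit 163, nat_lit 65, nat_lit 98, nat_lit 32]⟩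
noncomputable def n191 : Nd := ⟨nat_lit 8, [nat_lit 0, nat_lit 0, nat_lit 1048577, nat_lit 1048577, nat_lit 1048578, nat_lit 3145735, nat_lit 4194319, nat_lit 4194343], [nat_lit 0x300012, nat_lit 0x29050004f, nat_lit 0x731070002f, nat_lit 0x720c700027, nat_lit 0x629070000f, nat_lit 0x20850000b, nat_lit 0x430000d, nat_lit 0x104500009, nat_lit 0x520c700007, nat_lit 0x184500005, nat_lit 0x4188700003, nat_lit 0x200500002, nat_lit 0x3104700001, nat_lit 0x80500000], [nat_lit 135, nat_lit 199, nat_lit 197, nat_lit 133, nat_lit 163, nat_lit 65, nat_lit 98, nat_lit 32]⟩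
noncomputable def n192 : Nd := ⟨nat_lit 9, [nat_lit 0, nat_lit 0, nat_lit 1048577, nat_lit 1048577, nat_lit 1048578, nat_lit 3145735, nat_lit 4194319, nat_lit 4194343, nat_lit 5242959], [nat_lit 0x829070004f, nat_lit 0x731070002f, nat_lit 0x720c700027, nat_lit 0x629070000f, nat_lit 0x20850000b, nat_lit 0x430000d, nat_lit 0x104500009, nat_lit 0x520c700007, nat_lit 0x184500005, nat_lit 0x4188700003, nat_lit 0x200500002, nat_lit 0x3104700001, nat_lit 0x80500000], [nat_lit 135, nat_lit 199, nat_lit 197, nat_lit 133, nat_lit 163, nat_lit 65, nat_lit 98, nat_lit 32]⟩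

end Pool.Agent.L5helper44.Thin.W15
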